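import Pool.Agent.H63.BPQ.Base

/-! # Board bpq_modules, row FNE: all fine enough meshes are fine -/

set_option autoImplicit false

open Finset Pool.Agent.H55.BP Pool.Agent.H55.BQ

namespace Pool.Agent.H63.BPQ

theorem fne_one {n : ℕ} {ι : Type} (Y : Sys n ι) (e : ι) : ∃ N₀ : ℕ, ∀ N, N₀ ≤ N →
    ∀ (k : ℕ) (i : Fin n), 100 * ‖Y.z N e (k + 1) - Y.z N e k‖ ≤ ‖Y.z N e k - (i.val : ℂ)‖ := by
  have hr := Y.rad_pos
  have hr2 := Y.rad_lt
  have hc : ContinuousOn (Y.γ e) (Set.Icc 0 1) := (Y.cont e).mono Set.Icc_subset_Ici_self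
  have huc := isCompact_Icc.uniformContinuousOn_of_continuous hc
  rw [Metric.uniformContinuousOn_iff] at huc
  obtain ⟨δ, hδ, hu⟩ := huc (Y.rad / 100) (by positivity)
  obtain ⟨M, hM⟩ := exists_nat_gt (1 / δ)
  refine ⟨max M 1600, fun N hN k i => ?_⟩
  have hN1 : 1600 ≤ N := (le_max_right _ _).trans hN
  have hN0 : 0 < N := by omega
  have hNr : (0 : ℝ) < N := by exact_mod_cast hN0
  have hNM : (M : ℝ) ≤ N := by exact_mod_cast (le_max_left _ _).trans hN
  have hstep : 1 / (N : ℝ) < δ := by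
    rw [div_lt_iff₀ hNr]
    rw [div_lt_iff₀ hδ] at hM
    nlinarith
  rcases Nat.lt_or_ge k N with hk | hk
  · -- the first part
    have hk1 : (k : ℝ) / N ≤ 1 := by
      rw [div_le_one hNr]
      exact_mod_cast hk.le
    have hk2 : ((k + 1 : ℕ) : ℝ) / N ≤ 1 := by
      rw [div_le_one hNr]
      exact_mod_cast hk
    have h1 := hu (((k + 1 : ℕ) : ℝ) / N) ⟨by positivity, hk2⟩ ((k : ℝ) / N) ⟨by positivity, hk1⟩ (by
      rw [Real.dist_eq]
      have : ((k + 1 : ℕ) : ℝ) / N - (k : ℝ) / N = 1 / N := by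
        push_cast
        ring
      rw [this, abs_of_pos (by positivity)]
      exact hstep)
    rw [dist_eq_norm] at h1
    have h2 := Y.far e ((k : ℝ) / N) i (by positivity) hk1
    change 100 * ‖Y.γ e (((k + 1 : ℕ) : ℝ) / N) - Y.γ e ((k : ℝ) / N)‖ ≤
      ‖Y.γ e ((k : ℝ) / N) - (i.val : ℂ)‖
    linarith
  · -- the spiral
    have h1 := one_le_div hN0 hk
    have h2 : (1 : ℝ) ≤ ((k + 1 : ℕ) : ℝ) / N := one_le_div hN0 (by omega)
    have h3 : Y.z N e (k + 1) - Y.z N e k = (Y.z N e k - ((Y.wt e).val : ℂ)) *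
        (Complex.exp (((1 / N : ℝ) : ℂ) * cc) - 1) := by
      have e1 : Y.z N e (k + 1) - Y.z N e k = (Y.z N e (k + 1) - ((Y.wt e).val : ℂ)) -
          (Y.z N e k - ((Y.wt e).val : ℂ)) := by ring
      rw [e1]
      unfold Sys.z
      rw [spi' Y e _ h1, spi' Y e _ h2]
      have e2 : (((k + 1 : ℕ) : ℝ) / N - 1 : ℝ) = ((k : ℝ) / N - 1) + 1 / N := by
        push_cast
        ring
      rw [e2, Complex.ofReal_add, add_mul, Complex.exp_add]
      ring
    have h4 : ‖((1 / N : ℝ) : ℂ) * cc‖ ≤ 8 / N := by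
      rw [norm_mul, Complex.norm_real, Real.norm_of_nonneg (by positivity)]
      have := norm_cc
      rw [div_mul_eq_mul_div, one_mul]
      exact div_le_div_of_nonneg_right this hNr.le
    have h5 : (8 : ℝ) / N ≤ 1 / 200 := by
      rw [div_le_div_iff₀ hNr (by norm_num)]
      have : (1600 : ℝ) ≤ N := by exact_mod_cast hN1
      linarith
    have h6 := Complex.norm_exp_sub_one_le (x := ((1 / N : ℝ) : ℂ) * cc) (by linarith)
    have h7 : 100 * ‖Y.z N e (k + 1) - Y.z N e k‖ ≤ ‖Y.z N e k - ((Y.wt e).val : ℂ)‖ := by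
      rw [h3, norm_mul]
      have h8 : 0 ≤ ‖Y.z N e k - ((Y.wt e).val : ℂ)‖ := norm_nonneg _
      nlinarith
    by_cases hi : Y.wt e = i
    · rw [← hi]
      exact h7
    · have h8 := norm_z_le Y N hN0 e k hk
      have h9 := wt_dist (Y.wt e) i hi
      have h10 : ‖((Y.wt e).val : ℂ) - (i.val : ℂ)‖ ≤ ‖Y.z N e k - (i.val : ℂ)‖ +
          ‖Y.z N e k - ((Y.wt e).val : ℂ)‖ := by
        have : ((Y.wt e).val : ℂ) - (i.val : ℂ) = (Y.z N e k - (i.val : ℂ)) -
            (Y.z N e k - ((Y.wt e).val : ℂ)) := by ring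
        rw [this]
        exact norm_sub_le _ _
      linarith

theorem pf_FNE : T_FNE := by
  intro n ι _ Y
  choose N₀ hN₀ using fne_one Y
  obtain ⟨M, hM⟩ := (Set.finite_range N₀).bddAbove
  refine ⟨max M 100, fun N hN => ⟨(le_max_right _ _).trans hN, fun e k i => ?_⟩⟩
  exact hN₀ e N ((hM ⟨e, rfl⟩).trans ((le_max_left _ _).trans hN)) k i

end Pool.Agent.H63.BPQ
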