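import Pool.Agent.H63.BPQ.Side

/-! # Board bpq_modules, row LC: local constancy of the cells -/

set_option autoImplicit false

open Finset Pool.Agent.H55.BP Pool.Agent.H55.BQ

namespace Pool.Agent.H63.BPQ

/-- reals without a white vertex between them are on the same side -/
theorem side_eq (n : ℕ) [NeZero n] (x y : ℝ)
    (h : ∀ i : Fin n, ¬ ((x ≤ i.val ∧ (i.val : ℝ) ≤ y) ∨ (y ≤ i.val ∧ (i.val : ℝ) ≤ x))) :
    side n x = side n y := by
  have hn : 0 < n := Nat.pos_of_neZero n
  have hn1 : ((n - 1 : ℕ) : ℝ) = (n : ℝ) - 1 := by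
    rw [Nat.cast_sub (by omega), Nat.cast_one]
  have h0 := h ⟨0, hn⟩
  have h1 := h ⟨n - 1, by omega⟩
  simp only [Nat.cast_zero, hn1] at h0 h1
  push Not at h0 h1
  apply Fin.ext
  by_cases hx : 0 < x ∧ x < (n : ℝ) - 1
  · have hy0 : 0 < y := by
      by_contra hc
      exact absurd (h0.2 (not_lt.mp hc)) (not_lt.mpr hx.1.le)
    have hy1 : y < (n : ℝ) - 1 := by
      by_contra hc
      exact absurd (h1.1 hx.2.le) (not_lt.mpr (not_lt.mp hc))
    rw [side_in n x hx, side_in n y ⟨hy0, hy1⟩]
    rcases lt_trichotomy ⌊x⌋₊ ⌊y⌋₊ with h3 | h3 | h3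
    · exfalso
      have e1 : ⌊y⌋₊ < n := by
        rw [Nat.floor_lt hy0.le]
        linarith
      have e2 := h ⟨⌊y⌋₊, e1⟩
      apply e2
      left
      refine ⟨?_, Nat.floor_le hy0.le⟩
      exact ((Nat.floor_lt hx.1.le).mp h3).le
    · exact h3
    · exfalso
      have e1 : ⌊x⌋₊ < n := by
        rw [Nat.floor_lt hx.1.le]
        linarith
      have e2 := h ⟨⌊x⌋₊, e1⟩
      apply e2
      right
      refine ⟨?_, Nat.floor_le hx.1.le⟩
      exact ((Nat.floor_lt hy0.le).mp h3).le
  · rw [side_out n x hx, side_out n y]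
    intro hy
    apply hx
    constructor
    · by_contra hc
      exact absurd (h0.1 (not_lt.mp hc)) (not_lt.mpr hy.1.le)
    · by_contra hc
      exact absurd (h1.2 hy.2.le) (not_lt.mpr (not_lt.mp hc))

/-- the crossing point is a convex combination -/
theorem xr_conv (z w : ℂ) (h : sg z ≠ sg w) : ∃ t : ℝ, 0 ≤ t ∧ t ≤ 1 ∧
    ((xr z w : ℝ) : ℂ) = ((1 - t : ℝ) : ℂ) * z + (t : ℂ) * w := by
  have him : 0 ≤ z.im ∧ w.im < 0 ∨ z.im < 0 ∧ 0 ≤ w.im := by
    unfold sg at h
    by_cases h1 : 0 ≤ z.im
    · by_cases h2 : 0 ≤ w.im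
      · simp [h1, h2] at h
      · exact Or.inl ⟨h1, not_le.mp h2⟩
    · by_cases h2 : 0 ≤ w.im
      · exact Or.inr ⟨not_le.mp h1, h2⟩
      · simp [h1, h2] at h
  have hne : z.im - w.im ≠ 0 := by
    rcases him with h1 | h1
    · have : 0 < z.im - w.im := by linarith [h1.1, h1.2]
      exact this.ne'
    · have : z.im - w.im < 0 := by linarith [h1.1, h1.2]
      exact this.ne
  refine ⟨z.im / (z.im - w.im), ?_, ?_, ?_⟩
  · rcases him with h1 | h1
    · exact div_nonneg h1.1 (by linarith [h1.1, h1.2])
    · exact div_nonneg_of_nonpos h1.1.le (by linarith [h1.1, h1.2])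
  · rcases him with h1 | h1
    · rw [div_le_one (by linarith [h1.1, h1.2])]
      linarith [h1.2]
    · rw [div_le_one_of_neg (by linarith [h1.1, h1.2])]
      linarith [h1.2]
  · apply Complex.ext
    · rw [Complex.ofReal_re, Complex.add_re, Complex.re_ofReal_mul, Complex.re_ofReal_mul]
      unfold xr
      ring
    · rw [Complex.ofReal_im, Complex.add_im, Complex.im_ofReal_mul, Complex.im_ofReal_mul]
      field_simp
      ring

theorem pf_LC : T_LC := by
  intro n _ T c₀ z q ρ hq k l hkl
  induction l, hkl using Nat.le_induction with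
  | base =>
    intro _
    rw [if_pos rfl]
  | succ l hkl ih =>
    intro hz
    have ih' := ih fun j h1 h2 => hz j h1 (h2.trans (Nat.le_succ l))
    by_cases hs : sg (z l) = sg (z (l + 1))
    · have e1 : cell T c₀ z (l + 1) = cell T c₀ z l := by
        conv_lhs => unfold cell
        rw [if_pos hs]
      rw [e1, ih', hs]
    · have e1 : cell T c₀ z (l + 1) = T.r (side n (xr (z l) (z (l + 1)))) (cell T c₀ z l) := by
        conv_lhs => unfold cell
        rw [if_neg hs]
      have hside : side n (xr (z l) (z (l + 1))) = side n q.re := by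
        obtain ⟨t, ht0, ht1, ht⟩ := xr_conv _ _ hs
        have hb1 := hz l hkl (Nat.le_succ l)
        have hb2 := hz (l + 1) (hkl.trans (Nat.le_succ l)) le_rfl
        have hX : ‖((xr (z l) (z (l + 1)) : ℝ) : ℂ) - q‖ < ρ := by
          rw [ht]
          have e2 : ((1 - t : ℝ) : ℂ) * z l + (t : ℂ) * z (l + 1) - q =
              ((1 - t : ℝ) : ℂ) * (z l - q) + (t : ℂ) * (z (l + 1) - q) := by
            push_cast
            ring
          rw [e2]
          refine (norm_add_le _ _).trans_lt ?_
          rw [norm_mul, norm_mul, Complex.norm_real, Complex.norm_real,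
            Real.norm_of_nonneg (by linarith), Real.norm_of_nonneg ht0]
          rcases eq_or_lt_of_le ht0 with h3 | h3
          · rw [← h3]
            linarith
          · nlinarith
        have hre : |xr (z l) (z (l + 1)) - q.re| < ρ := by
          have := (Complex.abs_re_le_norm (((xr (z l) (z (l + 1)) : ℝ) : ℂ) - q)).trans_lt hX
          rwa [Complex.sub_re, Complex.ofReal_re] at this
        have him : |q.im| < ρ := by
          have := (Complex.abs_im_le_norm (((xr (z l) (z (l + 1)) : ℝ) : ℂ) - q)).trans_lt hX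
          rw [Complex.sub_im, Complex.ofReal_im, zero_sub, abs_neg] at this
          exact this
        refine side_eq n _ _ fun i hi => ?_
        have h1 := hq i
        have h2 : ‖q - (i.val : ℂ)‖ ≤ |q.re - i.val| + |q.im| := by
          have := Complex.norm_le_abs_re_add_abs_im (q - (i.val : ℂ))
          simpa using this
        have h3 : |q.re - i.val| ≤ |xr (z l) (z (l + 1)) - q.re| := by
          rcases hi with h | h
          · rw [abs_of_nonneg (by linarith [h.2]), abs_of_nonpos (by linarith [h.1, h.2])]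
            linarith [h.1]
          · rw [abs_of_nonpos (by linarith [h.1]), abs_of_nonneg (by linarith [h.1, h.2])]
            linarith [h.2]
        linarith
      rw [e1, hside, ih']
      by_cases h2 : sg (z k) = sg (z l)
      · have h3 : sg (z k) ≠ sg (z (l + 1)) := fun h => hs (h2.symm.trans h)
        rw [if_pos h2, if_neg h3]
      · have h3 : sg (z k) = sg (z (l + 1)) := by
          cases a1 : sg (z k) <;> cases a2 : sg (z l) <;> cases a3 : sg (z (l + 1)) <;> simp_all
        rw [if_neg h2, if_pos h3, T.rr]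

end Pool.Agent.H63.BPQ
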