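import Pool.Agent.H63.BPQ.Base
import Pool.Agent.H63.BPQ.LC

/-! # Board bpq_modules, row FT: the cells after a full turn -/

set_option autoImplicit false

open Finset Pool.Agent.H55.BP Pool.Agent.H55.BQ

namespace Pool.Agent.H63.BPQ

theorem cell_succ_eq {n : ℕ} [NeZero n] (T : LT n) (c₀ : T.V) (z : ℕ → ℂ) (k : ℕ)
    (h : sg (z k) = sg (z (k + 1))) : cell T c₀ z (k + 1) = cell T c₀ z k := by
  conv_lhs => unfold cell
  rw [if_pos h]

theorem cell_succ_ne {n : ℕ} [NeZero n] (T : LT n) (c₀ : T.V) (z : ℕ → ℂ) (k : ℕ)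
    (h : sg (z k) ≠ sg (z (k + 1))) :
    cell T c₀ z (k + 1) = T.r (side n (xr (z k) (z (k + 1)))) (cell T c₀ z k) := by
  conv_lhs => unfold cell
  rw [if_neg h]

/-- without flips everything is constant -/
theorem run_const {n : ℕ} [NeZero n] (T : LT n) (c₀ : T.V) (z : ℕ → ℂ) (a b : ℕ) (hab : a ≤ b)
    (h : ∀ j, a ≤ j → j < b → sg (z j) = sg (z (j + 1))) :
    cell T c₀ z b = cell T c₀ z a ∧ sg (z b) = sg (z a) := by
  induction b, hab using Nat.le_induction with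
  | base => exact ⟨rfl, rfl⟩
  | succ b hab ih =>
    obtain ⟨h1, h2⟩ := ih fun j h1 h2 => h j h1 (h2.trans (Nat.lt_succ_self b))
    have h3 := h b hab (Nat.lt_succ_self b)
    exact ⟨by rw [cell_succ_eq T c₀ z b h3, h1], by rw [← h3, h2]⟩

/-- exactly two flips -/
theorem two_flips {n : ℕ} [NeZero n] (T : LT n) (c₀ : T.V) (z : ℕ → ℂ) (k K a b : ℕ)
    (hka : k ≤ a) (hab : a < b) (hbK : b < K)
    (hflip : ∀ j, k ≤ j → j < K → sg (z j) ≠ sg (z (j + 1)) → j = a ∨ j = b)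
    (ha : sg (z a) ≠ sg (z (a + 1))) (hb : sg (z b) ≠ sg (z (b + 1))) :
    cell T c₀ z K = T.r (side n (xr (z b) (z (b + 1))))
      (T.r (side n (xr (z a) (z (a + 1)))) (cell T c₀ z k)) := by
  have h1 := run_const T c₀ z k a hka fun j h1 h2 => by
    by_contra h
    rcases hflip j h1 (by omega) h with h3 | h3 <;> omega
  have h2 := run_const T c₀ z (a + 1) b hab fun j h1 h2 => by
    by_contra h
    rcases hflip j (by omega) (by omega) h with h3 | h3 <;> omega
  have h3 := run_const T c₀ z (b + 1) K hbK fun j h1 h2 => by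
    by_contra h
    rcases hflip j (by omega) (by omega) h with h3 | h3 <;> omega
  rw [h3.1, cell_succ_ne T c₀ z b hb, h2.1, cell_succ_ne T c₀ z a ha, h1.1]

/-- a member of a residue class in a window -/
theorem window (N : ℕ) (κ k : ℕ) (hκ : κ < N) : ∃ m : ℕ, k ≤ κ + m * N ∧ κ + m * N < k + N := by
  have hN : 0 < N := by omega
  have hex : ∃ m : ℕ, k ≤ κ + m * N := ⟨k, by nlinarith⟩
  classical
  refine ⟨Nat.find hex, Nat.find_spec hex, ?_⟩
  rcases Nat.eq_zero_or_pos (Nat.find hex) with h | h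
  · rw [h]
    omega
  · have h1 : ¬ (k ≤ κ + (Nat.find hex - 1) * N) := Nat.find_min hex (by omega)
    have h2 : Nat.find hex * N = (Nat.find hex - 1) * N + N := by
      obtain ⟨c, hc⟩ : ∃ c, Nat.find hex = c + 1 := ⟨Nat.find hex - 1, by omega⟩
      rw [hc, Nat.add_sub_cancel]
      ring
    omega

theorem window_uniq (N κ m m' k : ℕ) (h1 : k ≤ κ + m * N) (h2 : κ + m * N < k + N)
    (h3 : k ≤ κ + m' * N) (h4 : κ + m' * N < k + N) : κ + m * N = κ + m' * N := by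
  rcases lt_trichotomy m m' with h | h | h
  · have : (m + 1) * N ≤ m' * N := Nat.mul_le_mul_right N h
    rw [add_mul, one_mul] at this
    omega
  · rw [h]
  · have : (m' + 1) * N ≤ m * N := Nat.mul_le_mul_right N h
    rw [add_mul, one_mul] at this
    omega

/-- the position of the crossings in the spiral -/
theorem xr_spiral {n : ℕ} {ι : Type} (Y : Sys n ι) (N : ℕ) (hN : 0 < N) (e : ι) (k : ℕ)
    (hk : N ≤ k) (hs : sg (Y.z N e k) ≠ sg (Y.z N e (k + 1))) :
    ((Y.z N e k - ((Y.wt e).val : ℂ)).re < 0 → (Y.z N e (k + 1) - ((Y.wt e).val : ℂ)).re < 0 →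
      xr (Y.z N e k) (Y.z N e (k + 1)) < (Y.wt e).val) ∧
    (0 < (Y.z N e k - ((Y.wt e).val : ℂ)).re → 0 < (Y.z N e (k + 1) - ((Y.wt e).val : ℂ)).re →
      ((Y.wt e).val : ℝ) < xr (Y.z N e k) (Y.z N e (k + 1))) ∧
    |xr (Y.z N e k) (Y.z N e (k + 1)) - (Y.wt e).val| ≤ Y.rad := by
  obtain ⟨t, ht0, ht1, ht⟩ := xr_conv _ _ hs
  have h1 : ((xr (Y.z N e k) (Y.z N e (k + 1)) - (Y.wt e).val : ℝ) : ℂ) =
      ((1 - t : ℝ) : ℂ) * (Y.z N e k - ((Y.wt e).val : ℂ)) +
        (t : ℂ) * (Y.z N e (k + 1) - ((Y.wt e).val : ℂ)) := by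
    rw [Complex.ofReal_sub, ht]
    push_cast
    ring
  have h2 : xr (Y.z N e k) (Y.z N e (k + 1)) - (Y.wt e).val =
      (1 - t) * (Y.z N e k - ((Y.wt e).val : ℂ)).re +
        t * (Y.z N e (k + 1) - ((Y.wt e).val : ℂ)).re := by
    have := congrArg Complex.re h1
    rw [Complex.ofReal_re, Complex.add_re, Complex.re_ofReal_mul, Complex.re_ofReal_mul] at this
    exact this
  refine ⟨fun a1 a2 => ?_, fun a1 a2 => ?_, ?_⟩
  · rcases eq_or_lt_of_le ht0 with h3 | h3
    · rw [← h3] at h2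
      linarith
    · nlinarith
  · rcases eq_or_lt_of_le ht0 with h3 | h3
    · rw [← h3] at h2
      linarith
    · nlinarith
  · have h3 : |xr (Y.z N e k) (Y.z N e (k + 1)) - (Y.wt e).val| =
        ‖((xr (Y.z N e k) (Y.z N e (k + 1)) - (Y.wt e).val : ℝ) : ℂ)‖ := by
      rw [Complex.norm_real, Real.norm_eq_abs]
    rw [h3, h1]
    refine (norm_add_le _ _).trans ?_
    rw [norm_mul, norm_mul, Complex.norm_real, Complex.norm_real,
      Real.norm_of_nonneg (by linarith), Real.norm_of_nonneg ht0]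
    have h4 := norm_z_le Y N hN e k hk
    have h5 := norm_z_le Y N hN e (k + 1) (by omega)
    nlinarith

/-- the flips in the spiral -/
theorem spiral_flips {n : ℕ} [NeZero n] {ι : Type} (hROT : T_ROT) (hSDL : T_SDL) (Y : Sys n ι)
    (N : ℕ) (hn : 2 ≤ n) (hF : Y.Fine N) (e : ι) : ∃ κ κ', κ < N ∧ κ' < N ∧
    (∀ k, N ≤ k → ((sg (Y.z N e k) = true ∧ sg (Y.z N e (k + 1)) = false) ↔
      ∃ m, k - N = κ + m * N)) ∧
    (∀ k, N ≤ k → ((sg (Y.z N e k) = false ∧ sg (Y.z N e (k + 1)) = true) ↔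
      ∃ m, k - N = κ' + m * N)) ∧
    (∀ k, N ≤ k → sg (Y.z N e k) = true → sg (Y.z N e (k + 1)) = false →
      xr (Y.z N e k) (Y.z N e (k + 1)) < (Y.wt e).val ∧
      ((Y.wt e).val : ℝ) - Y.rad ≤ xr (Y.z N e k) (Y.z N e (k + 1)) ∧
      side n (xr (Y.z N e k) (Y.z N e (k + 1))) = lf n (Y.wt e)) ∧
    (∀ k, N ≤ k → sg (Y.z N e k) = false → sg (Y.z N e (k + 1)) = true →
      ((Y.wt e).val : ℝ) < xr (Y.z N e k) (Y.z N e (k + 1)) ∧
      xr (Y.z N e k) (Y.z N e (k + 1)) ≤ (Y.wt e).val + Y.rad ∧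
      side n (xr (Y.z N e k) (Y.z N e (k + 1))) = Y.wt e) := by
  have hN : 0 < N := by have := hF.big; omega
  have hr := Y.rad_pos
  have hr2 := Y.rad_lt
  have ha : Y.γ e 1 - ((Y.wt e).val : ℂ) ≠ 0 := by
    intro h
    have := Y.hit e
    rw [h, norm_zero] at this
    linarith
  obtain ⟨κ, κ', hκ, hκ', hL, hR, hLs, hRs⟩ := hROT N (Y.γ e 1 - ((Y.wt e).val : ℂ))
    (fun j => Y.z N e (N + j) - ((Y.wt e).val : ℂ)) hF.big ha (fun j => by
      have h1 : (1 : ℝ) ≤ ((N + j : ℕ) : ℝ) / N := one_le_div hN (by omega)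
      have h2 := spi' Y e _ h1
      have h3 : (((N + j : ℕ) : ℝ) / N - 1 : ℝ) = (j : ℝ) / N := by
        have hN' : (N : ℝ) ≠ 0 := by exact_mod_cast hN.ne'
        push_cast
        field_simp
        ring
      rw [h3] at h2
      exact h2)
  have him : ∀ j, (Y.z N e (N + j) - ((Y.wt e).val : ℂ)).im = (Y.z N e (N + j)).im := by
    intro j
    rw [Complex.sub_im, Complex.natCast_im, sub_zero]
  have hsg : ∀ z : ℂ, (sg z = true ↔ 0 ≤ z.im) ∧ (sg z = false ↔ z.im < 0) := by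
    intro z
    unfold sg
    rw [decide_eq_true_iff, decide_eq_false_iff_not, not_le]
    exact ⟨Iff.rfl, Iff.rfl⟩
  have hidx : ∀ k, N ≤ k → N + (k - N) = k ∧ N + (k - N + 1) = k + 1 := by
    intro k hk
    omega
  refine ⟨κ, κ', hκ, hκ', fun k hk => ?_, fun k hk => ?_, fun k hk h1 h2 => ?_,
    fun k hk h1 h2 => ?_⟩
  · rw [← hL (k - N)]
    simp only [him]
    rw [(hidx k hk).1, (hidx k hk).2, (hsg _).1, (hsg _).2]
  · rw [← hR (k - N)]
    simp only [him]
    rw [(hidx k hk).1, (hidx k hk).2, (hsg _).1, (hsg _).2]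
  · have h3 := hLs (k - N)
    simp only [him] at h3
    rw [(hidx k hk).1, (hidx k hk).2] at h3
    obtain ⟨h4, h5⟩ := h3 ((hsg _).1.mp h1) ((hsg _).2.mp h2)
    obtain ⟨g1, -, g3⟩ := xr_spiral Y N hN e k hk (by rw [h1, h2]; decide)
    have g4 := g1 h4 h5
    rw [abs_le] at g3
    refine ⟨g4, by linarith [g3.1], ?_⟩
    exact (hSDL n (Y.wt e) _ hn).1 (by linarith [g3.1]) g4
  · have h3 := hRs (k - N)
    simp only [him] at h3
    rw [(hidx k hk).1, (hidx k hk).2] at h3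
    obtain ⟨h4, h5⟩ := h3 ((hsg _).2.mp h1) ((hsg _).1.mp h2)
    obtain ⟨-, g2, g3⟩ := xr_spiral Y N hN e k hk (by rw [h1, h2]; decide)
    have g4 := g2 h4 h5
    rw [abs_le] at g3
    refine ⟨g4, by linarith [g3.2], ?_⟩
    exact (hSDL n (Y.wt e) _ hn).2 g4 (by linarith [g3.2])

theorem pf_FT (hROT : T_ROT) (hSCL : T_SCL) (hSDL : T_SDL) : T_FT := by
  intro n _ T ι Y N hn hF e k hk
  obtain ⟨κ, κ', hκ, hκ', hL, hR, hLs, hRs⟩ := spiral_flips hROT hSDL Y N hn hF e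
  obtain ⟨m, hm1, hm2⟩ := window N κ (k - N) hκ
  obtain ⟨m', hm'1, hm'2⟩ := window N κ' (k - N) hκ'
  -- the two flips
  set a := N + (κ + m * N) with ha
  set b := N + (κ' + m' * N) with hb
  have haL := (hL a (by omega)).mpr ⟨m, by omega⟩
  have hbR := (hR b (by omega)).mpr ⟨m', by omega⟩
  have hflip : ∀ j, k ≤ j → j < k + N → sg (Y.z N e j) ≠ sg (Y.z N e (j + 1)) →
      j = a ∨ j = b := by
    intro j hj1 hj2 hj3
    cases h1 : sg (Y.z N e j) <;> cases h2 : sg (Y.z N e (j + 1))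
    · rw [h1, h2] at hj3
      exact absurd rfl hj3
    · right
      obtain ⟨m'', hm''⟩ := (hR j (by omega)).mp ⟨h1, h2⟩
      have := window_uniq N κ' m' m'' (k - N) hm'1 hm'2 (by omega) (by omega)
      omega
    · left
      obtain ⟨m'', hm''⟩ := (hL j (by omega)).mp ⟨h1, h2⟩
      have := window_uniq N κ m m'' (k - N) hm1 hm2 (by omega) (by omega)
      omega
    · rw [h1, h2] at hj3
      exact absurd rfl hj3
  have hne : a ≠ b := by
    intro h
    rw [← h, haL.1] at hbR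
    exact absurd hbR.1 (by decide)
  have hsa : sg (Y.z N e a) ≠ sg (Y.z N e (a + 1)) := by rw [haL.1, haL.2]; decide
  have hsb : sg (Y.z N e b) ≠ sg (Y.z N e (b + 1)) := by rw [hbR.1, hbR.2]; decide
  have sa := (hLs a (by omega) haL.1 haL.2).2.2
  have sb := (hRs b (by omega) hbR.1 hbR.2).2.2
  unfold Sys.c
  rcases lt_or_gt_of_ne hne with h | h
  · -- the left crossing is the first one
    have h1 := run_const T (cell0 T (Y.γ e 0)) (Y.z N e) k a (by omega) fun j h1 h2 => by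
      by_contra h3
      rcases hflip j h1 (by omega) h3 with h4 | h4 <;> omega
    have h2 : sg (Y.z N e k) = true := by rw [← h1.2, haL.1]
    rw [h2, if_pos rfl, two_flips T _ (Y.z N e) k (k + N) a b (by omega) h (by omega)
      (fun j h3 h4 h5 => hflip j h3 h4 h5) hsa hsb, sa, sb]
  · have h1 := run_const T (cell0 T (Y.γ e 0)) (Y.z N e) k b (by omega) fun j h1 h2 => by
      by_contra h3
      rcases hflip j h1 (by omega) h3 with h4 | h4 <;> omega
    have h2 : sg (Y.z N e k) = false := by rw [← h1.2, hbR.1]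
    rw [h2, if_neg (by decide), two_flips T _ (Y.z N e) k (k + N) b a (by omega) h (by omega)
      (fun j h3 h4 h5 => (hflip j h3 h4 h5).symm) hsb hsa, sa, sb]

end Pool.Agent.H63.BPQ
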