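import Pool.Agent.H55.BQ.Targets

/-! # Board bpq_modules, row HIT: first hitting times -/

set_option autoImplicit false

open Finset Pool.Agent.H55.BP Pool.Agent.H55.BQ

namespace Pool.Agent.H63.BPQ

theorem pf_HIT : T_HIT := by
  intro f p ρ hf hρ h0 h1
  have hg : ContinuousOn (fun t => ‖f t - p‖) (Set.Icc (0 : ℝ) 1) :=
    (hf.sub continuousOn_const).norm
  have hcl : IsClosed (Set.Icc (0 : ℝ) 1 ∩ (fun t => ‖f t - p‖) ⁻¹' Set.Iic ρ) :=
    hg.preimage_isClosed_of_isClosed isClosed_Icc isClosed_Iic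
  have hcomp : IsCompact (Set.Icc (0 : ℝ) 1 ∩ (fun t => ‖f t - p‖) ⁻¹' Set.Iic ρ) :=
    isCompact_Icc.of_isClosed_subset hcl Set.inter_subset_left
  have h1' : ‖f 1 - p‖ = 0 := by rw [h1, sub_self, norm_zero]
  obtain ⟨τ, ⟨hτI, hτρ⟩, hτ⟩ := hcomp.exists_isLeast ⟨1, ⟨by norm_num, le_rfl⟩, by
    change ‖f 1 - p‖ ≤ ρ
    rw [h1']
    exact hρ.le⟩
  have hτρ' : ‖f τ - p‖ ≤ ρ := hτρ
  have hmin : ∀ t, 0 ≤ t → t < τ → ρ < ‖f t - p‖ := by
    intro t ht0 ht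
    by_contra hc
    exact absurd (hτ ⟨⟨ht0, ht.le.trans hτI.2⟩, not_lt.mp hc⟩) (not_le.mpr ht)
  have hτ0 : 0 < τ := by
    rcases eq_or_lt_of_le hτI.1 with h | h
    · rw [← h] at hτρ'
      linarith
    · exact h
  have heq : ‖f τ - p‖ = ρ := by
    refine le_antisymm hτρ' ?_
    by_contra hc
    rw [not_le] at hc
    obtain ⟨s, hs, hs2⟩ := intermediate_value_Icc' hτI.1
      (hg.mono (Set.Icc_subset_Icc_right hτI.2)) (show ρ ∈ Set.Icc ‖f τ - p‖ ‖f 0 - p‖ from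
        ⟨hc.le, h0.le⟩)
    have hs2' : ‖f s - p‖ = ρ := hs2
    rcases eq_or_lt_of_le hs.2 with h | h
    · rw [h] at hs2'
      linarith
    · have := hmin s hs.1 h
      linarith
  refine ⟨τ, hτ0, ?_, heq, hmin⟩
  rcases eq_or_lt_of_le hτI.2 with h | h
  · rw [h, h1'] at heq
    linarith
  · exact h

end Pool.Agent.H63.BPQ
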