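import Pool.Agent.H55.BQ.Targets

/-! # Board bpq_modules, row NX: no interleaving pieces, the crossing form vanishes -/

set_option autoImplicit false

open Finset Pool.Agent.H55.BP Pool.Agent.H55.BQ

namespace Pool.Agent.H63.BPQ

/-- the piece formula -/
theorem incR_piece {n : ℕ} {T : LT n} (L : Walk T) (f : T.V → ℝ → ZMod 2) :
    incR L f = f (L.C 0) (L.x 0) +
      ∑ k ∈ range L.K, (f (L.C (k + 1)) (L.x k) + f (L.C (k + 1)) (L.x (k + 1))) := by
  unfold incR
  rw [Finset.sum_add_distrib, Finset.sum_add_distrib]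
  have h1 := Finset.sum_range_succ (fun k => f (L.C k) (L.x k)) L.K
  have h2 := Finset.sum_range_succ' (fun k => f (L.C k) (L.x k)) L.K
  rw [h2] at h1
  linear_combination -h1

theorem incR_add {n : ℕ} {T : LT n} (L : Walk T) (f g : T.V → ℝ → ZMod 2) :
    incR L (fun c x => f c x + g c x) = incR L f + incR L g := by
  unfold incR
  simp only [Finset.sum_add_distrib]
  ring

open Classical in
/-- the indicator -/
noncomputable def ww {V : Type} (c : V) (x : ℝ) (c' : V) (y : ℝ) : ZMod 2 :=
  if c' = c ∧ y < x then 1 else 0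

theorem two_zmod (a : ZMod 2) : a + a = 0 := CharTwo.add_self_eq_zero a

theorem ww_ilv {V : Type} (c c' : V) (u v y z : ℝ) (h : c' = c → ilv u v y z = false) :
    ww c u c' y + ww c u c' z + (ww c v c' y + ww c v c' z) = 0 := by
  classical
  unfold ww
  by_cases hc : c' = c
  · have h1 := h hc
    unfold ilv at h1
    simp only [hc, true_and]
    by_cases a1 : y < u <;> by_cases a2 : z < u <;> by_cases a3 : y < v <;> by_cases a4 : z < v <;>
      simp [a1, a2, a3, a4] at h1 ⊢ <;> decide
  · simp [hc]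

/-- the second star seen from the two ends of a piece -/
theorem phi_zero {n : ℕ} {T : LT n} (M : Fin 3 → Walk T) (hM : ∀ a b, (M a).C 0 = (M b).C 0)
    (b b' : Fin 3) (c : T.V) (u v : ℝ)
    (h1 : ∀ b l, l < (M b).K → (M b).C (l + 1) = c → ilv u v ((M b).x l) ((M b).x (l + 1)) = false)
    (h0 : ∀ b b', (M b).C 0 = c → ilv u v ((M b).x 0) ((M b').x 0) = false) :
    (incR (M b) (ww c u) + incR (M b') (ww c u)) + (incR (M b) (ww c v) + incR (M b') (ww c v)) =
      0 := by
  rw [incR_piece (M b) (ww c u), incR_piece (M b') (ww c u), incR_piece (M b) (ww c v),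
    incR_piece (M b') (ww c v)]
  have e0 := ww_ilv c ((M b).C 0) u v ((M b).x 0) ((M b').x 0) fun h => h0 b b' h
  have es : ∀ b : Fin 3, ∑ k ∈ range (M b).K,
      (ww c u ((M b).C (k + 1)) ((M b).x k) + ww c u ((M b).C (k + 1)) ((M b).x (k + 1))) +
      ∑ k ∈ range (M b).K,
      (ww c v ((M b).C (k + 1)) ((M b).x k) + ww c v ((M b).C (k + 1)) ((M b).x (k + 1))) = 0 := by
    intro b
    rw [← Finset.sum_add_distrib]
    refine Finset.sum_eq_zero fun l hl => ?_
    exact ww_ilv c _ u v _ _ fun h => h1 b l (Finset.mem_range.mp hl) h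
  rw [hM b' b]
  linear_combination e0 + es b + es b'

theorem pf_NX : T_NX := by
  intro n T L M hL hM hNI a a' b b'
  let φ : T.V → ℝ → ZMod 2 := fun c x => incR (M b) (ww c x) + incR (M b') (ww c x)
  have hX : ∀ a b, XR (L a) (M b) = incR (L a) fun c x => incR (M b) (ww c x) := fun _ _ => rfl
  have h1 : XR (L a) (M b) + XR (L a) (M b') = incR (L a) φ := by
    rw [hX, hX, ← incR_add]
  have h2 : XR (L a') (M b) + XR (L a') (M b') = incR (L a') φ := by
    rw [hX, hX, ← incR_add]
  have h3 : ∀ a, ∑ k ∈ range (L a).K, (φ ((L a).C (k + 1)) ((L a).x k) +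
      φ ((L a).C (k + 1)) ((L a).x (k + 1))) = 0 := by
    intro a
    refine Finset.sum_eq_zero fun k hk => ?_
    have hk' := Finset.mem_range.mp hk
    exact phi_zero M hM b b' _ _ _ (fun b l hl h => hNI.ll a b k l hk' hl h.symm)
      (fun b b' h => hNI.lc a b b' k hk' h.symm)
  have h4 : φ ((L a).C 0) ((L a).x 0) + φ ((L a).C 0) ((L a').x 0) = 0 :=
    phi_zero M hM b b' _ _ _ (fun b l hl h => hNI.cl a a' b l hl h)
      (fun b b' h => hNI.cc a a' b b' h.symm)
  have h5 : incR (L a) φ + incR (L a') φ = 0 := by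
    rw [incR_piece, incR_piece, h3 a, h3 a', hL a' a]
    linear_combination h4
  linear_combination h1 + h2 + h5

end Pool.Agent.H63.BPQ
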