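import Pool.Agent.H63.BPQ.Base

/-! # Board bpq_modules, rows RGB and RGC -/

set_option autoImplicit false

open Finset Pool.Agent.H55.BP Pool.Agent.H55.BQ

namespace Pool.Agent.H63.BPQ

theorem pf_RGB : T_RGB := by
  intro n ι Y N hF e f k l hk hl
  have hN : 0 < N := by have := hF.big; omega
  have hr := Y.rad_pos
  have hr2 := Y.rad_lt
  set i := Y.wt f with hi
  have hD' : 4 * ‖Y.z N f l - (i.val : ℂ)‖ ≤ Y.rad := by
    have h1 := norm_z_comp Y N hN f f N l 2 le_rfl (by omega) (by omega)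
    have h2 := norm_z_le Y N hN f N le_rfl
    norm_num at h1
    linarith
  have hD'1 : 0 < ‖Y.z N f l - (i.val : ℂ)‖ := norm_z_pos Y N hN f l (by omega)
  have hD : Y.rad ≤ 2 * ‖Y.z N e k - (i.val : ℂ)‖ := by
    rcases le_or_gt k N with h | h
    · have h1 := Y.far e ((k : ℝ) / N) i (by positivity) (by
        rw [div_le_one (by exact_mod_cast hN)]
        exact_mod_cast h)
      have h2 : 0 ≤ ‖Y.γ e ((k : ℝ) / N) - (i.val : ℂ)‖ := norm_nonneg _
      change Y.rad ≤ 2 * ‖Y.γ e ((k : ℝ) / N) - (i.val : ℂ)‖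
      linarith
    · by_cases hw : Y.wt e = i
      · have h1 := norm_z_comp Y N hN e e k (k + N) 1 h.le (by omega) (by omega)
        have h2 := norm_z Y N hN e k h.le
        rw [hw] at h2
        rw [h2]
        have h3 : Real.exp (-(1 * Real.log 2)) ≤ Real.exp (-(((k : ℝ) / N - 1) * Real.log 2)) := by
          rw [Real.exp_le_exp, neg_le_neg_iff]
          have h4 : (k : ℝ) / N ≤ 2 := by
            rw [div_le_iff₀ (by exact_mod_cast hN)]
            exact_mod_cast hk
          exact mul_le_mul_of_nonneg_right (by linarith) (Real.log_nonneg (by norm_num))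
        rw [one_mul, Real.exp_neg, Real.exp_log (by norm_num)] at h3
        nlinarith
      · have h1 := norm_z_le Y N hN e k h.le
        have h2 := wt_dist (Y.wt e) i hw
        have h3 : ‖((Y.wt e).val : ℂ) - (i.val : ℂ)‖ ≤ ‖Y.z N e k - (i.val : ℂ)‖ +
            ‖Y.z N e k - ((Y.wt e).val : ℂ)‖ := by
          have : ((Y.wt e).val : ℂ) - (i.val : ℂ) = (Y.z N e k - (i.val : ℂ)) -
              (Y.z N e k - ((Y.wt e).val : ℂ)) := by ring
          rw [this]
          exact norm_sub_le _ _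
        linarith
  have s1 := st_le Y N hF e k i
  have s2 := st_le Y N hF f l i
  have h5 : ‖Y.z N e k - (i.val : ℂ)‖ ≤ ‖Y.z N e k - Y.z N f l‖ + ‖Y.z N f l - (i.val : ℂ)‖ := by
    have : Y.z N e k - (i.val : ℂ) = (Y.z N e k - Y.z N f l) + (Y.z N f l - (i.val : ℂ)) := by ring
    rw [this]
    exact norm_add_le _ _
  linarith

/-- two points around the same white vertex, one of them much closer -/
theorem rgc_aux {n : ℕ} {ι : Type} (Y : Sys n ι) (N : ℕ) (hF : Y.Fine N) (e f : ι) (k l : ℕ)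
    (hk : 2 * N < k) (hl : 2 * N < l) (hw : Y.wt e = Y.wt f) (hkl : k + N ≤ l) :
    8 * (Y.st N e k + Y.st N f l) < ‖Y.z N e k - Y.z N f l‖ := by
  have hN : 0 < N := by have := hF.big; omega
  have h1 := norm_z_comp Y N hN e f k l 1 (by omega) (by omega) (by omega)
  have h2 := norm_z_pos Y N hN f l (by omega)
  rw [← hw] at h1 h2
  have s1 := st_le Y N hF e k (Y.wt e)
  have s2 := st_le Y N hF f l (Y.wt e)
  have h5 : ‖Y.z N e k - ((Y.wt e).val : ℂ)‖ ≤ ‖Y.z N e k - Y.z N f l‖ +
      ‖Y.z N f l - ((Y.wt e).val : ℂ)‖ := by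
    have : Y.z N e k - ((Y.wt e).val : ℂ) = (Y.z N e k - Y.z N f l) +
        (Y.z N f l - ((Y.wt e).val : ℂ)) := by ring
    rw [this]
    exact norm_add_le _ _
  norm_num at h1
  linarith

theorem pf_RGC : T_RGC := by
  intro n ι Y N hF e f k l hk hl h
  have hN : 0 < N := by have := hF.big; omega
  by_cases hw : Y.wt e = Y.wt f
  · rcases h with h | h | h
    · exact absurd hw h
    · exact rgc_aux Y N hF e f k l hk hl hw h
    · have h1 := rgc_aux Y N hF f e l k hl hk hw.symm h
      rw [norm_sub_rev, add_comm (Y.st N e k)]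
      exact h1
  · have h1 := norm_z_le Y N hN e k (by omega)
    have h2 := norm_z_le Y N hN f l (by omega)
    have h3 := wt_dist (Y.wt e) (Y.wt f) hw
    have s1 := st_le Y N hF e k (Y.wt e)
    have s2 := st_le Y N hF f l (Y.wt f)
    have hr2 := Y.rad_lt
    have h4 : ‖((Y.wt e).val : ℂ) - ((Y.wt f).val : ℂ)‖ ≤ ‖Y.z N e k - Y.z N f l‖ +
        ‖Y.z N e k - ((Y.wt e).val : ℂ)‖ + ‖Y.z N f l - ((Y.wt f).val : ℂ)‖ := by
      have : ((Y.wt e).val : ℂ) - ((Y.wt f).val : ℂ) = (Y.z N e k - Y.z N f l) -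
          (Y.z N e k - ((Y.wt e).val : ℂ)) + (Y.z N f l - ((Y.wt f).val : ℂ)) := by ring
      rw [this]
      exact (norm_add_le _ _).trans (add_le_add_left (norm_sub_le _ _) _)
    linarith

end Pool.Agent.H63.BPQ
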