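import Pool.Agent.H63.BPQ.Base

/-! # Board bpq_modules, row ROT: the crossings of the real line by a discrete spiral -/

set_option autoImplicit false

open Finset Pool.Agent.H55.BP Pool.Agent.H55.BQ

namespace Pool.Agent.H63.BPQ

/-- an arithmetic progression -/
theorem rot_arith (N : ℕ) (hN : 0 < N) (F : ℤ) : ∃ κ, κ < N ∧ ∀ k : ℕ,
    (∃ j : ℤ, (k : ℤ) - j * N = F) ↔ ∃ m : ℕ, k = κ + m * N := by
  have hN' : (0 : ℤ) < N := by exact_mod_cast hN
  have h1 := Int.emod_nonneg F hN'.ne'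
  have h2 := Int.emod_lt_of_pos F hN'
  have h3 := Int.emod_add_mul_ediv F N
  refine ⟨(F % N).toNat, by omega, fun k => ⟨?_, ?_⟩⟩
  · rintro ⟨j, hj⟩
    have h4 : (k : ℤ) = F % N + (F / N + j) * N := by
      linarith [mul_comm (N : ℤ) (F / N), add_mul (F / N) j (N : ℤ)]
    have h5 : 0 ≤ F / N + j := by
      by_contra hc
      have h6 : F / N + j ≤ -1 := by omega
      have h7 : (F / N + j) * N ≤ -1 * N := mul_le_mul_of_nonneg_right h6 hN'.le
      omega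
    refine ⟨(F / N + j).toNat, ?_⟩
    apply Int.natCast_inj.mp
    rw [h4]
    push_cast
    rw [Int.toNat_of_nonneg h1, Int.toNat_of_nonneg h5]
  · rintro ⟨m, hm⟩
    refine ⟨m - F / N, ?_⟩
    rw [hm]
    push_cast
    rw [Int.toNat_of_nonneg h1]
    linarith [mul_comm (N : ℤ) (F / N), sub_mul (m : ℤ) (F / N) (N : ℤ)]

/-- reduction modulo the period -/
theorem rot_red (N : ℕ) (hN : 0 < N) (x : ℝ) (j : ℤ) (f : ℝ → ℝ)
    (hf : ∀ y (m : ℤ), f (y - m * (2 * Real.pi)) = f y) :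
    f (2 * Real.pi * x / N) = f (2 * Real.pi * (x - j * N) / N) := by
  have hN' : (N : ℝ) ≠ 0 := by exact_mod_cast hN.ne'
  rw [← hf (2 * Real.pi * x / N) j]
  congr 1
  field_simp

theorem rot_sin (N : ℕ) (hN : 0 < N) (x : ℝ) (j : ℤ) :
    Real.sin (2 * Real.pi * x / N) = Real.sin (2 * Real.pi * (x - j * N) / N) :=
  rot_red N hN x j Real.sin fun y m => Real.sin_sub_int_mul_two_pi y m

theorem rot_cos (N : ℕ) (hN : 0 < N) (x : ℝ) (j : ℤ) :
    Real.cos (2 * Real.pi * x / N) = Real.cos (2 * Real.pi * (x - j * N) / N) :=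
  rot_red N hN x j Real.cos fun y m => Real.cos_sub_int_mul_two_pi y m

theorem rot_nonneg (N : ℕ) (hN : 0 < N) (y : ℝ) (h0 : 0 ≤ y) (h1 : y ≤ (N : ℝ) / 2) :
    0 ≤ Real.sin (2 * Real.pi * y / N) := by
  have hN' : (0 : ℝ) < N := by exact_mod_cast hN
  have hpi := Real.pi_pos
  apply Real.sin_nonneg_of_nonneg_of_le_pi
  · positivity
  · rw [div_le_iff₀ hN']
    nlinarith

theorem rot_neg (N : ℕ) (hN : 0 < N) (y : ℝ) (h0 : (N : ℝ) / 2 < y) (h1 : y < N) :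
    Real.sin (2 * Real.pi * y / N) < 0 := by
  have hN' : (0 : ℝ) < N := by exact_mod_cast hN
  have hpi := Real.pi_pos
  have h2 : Real.sin (2 * Real.pi * y / N) = -Real.sin (2 * Real.pi * y / N - Real.pi) := by
    rw [Real.sin_sub_pi, neg_neg]
  rw [h2, neg_lt_zero]
  apply Real.sin_pos_of_pos_of_lt_pi
  · rw [sub_pos, lt_div_iff₀ hN']
    nlinarith
  · rw [sub_lt_iff_lt_add, div_lt_iff₀ hN']
    nlinarith

/-- the sign of the sine -/
theorem rot_case (N : ℕ) (hN : 0 < N) (x : ℝ) : ∃ j : ℤ,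
    (0 ≤ x - j * N ∧ x - j * N ≤ (N : ℝ) / 2 ∧ 0 ≤ Real.sin (2 * Real.pi * x / N)) ∨
    ((N : ℝ) / 2 < x - j * N ∧ x - j * N < N ∧ Real.sin (2 * Real.pi * x / N) < 0) := by
  have hN' : (0 : ℝ) < N := by exact_mod_cast hN
  refine ⟨⌊x / N⌋, ?_⟩
  have h1 := Int.floor_le (x / N)
  have h2 := Int.lt_floor_add_one (x / N)
  rw [le_div_iff₀ hN'] at h1
  rw [div_lt_iff₀ hN'] at h2
  rw [rot_sin N hN x ⌊x / N⌋]
  rcases le_or_gt (x - ⌊x / N⌋ * N) ((N : ℝ) / 2) with h | h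
  · exact Or.inl ⟨by linarith, h, rot_nonneg N hN _ (by linarith) h⟩
  · exact Or.inr ⟨h, by linarith, rot_neg N hN _ h (by linarith)⟩

/-- left crossings -/
theorem rot_left (N : ℕ) (hN : 100 ≤ N) (x : ℝ) :
    (0 ≤ Real.sin (2 * Real.pi * x / N) ∧ Real.sin (2 * Real.pi * (x + 1) / N) < 0) ↔
    ∃ j : ℤ, (N : ℝ) / 2 - 1 < x - j * N ∧ x - j * N ≤ (N : ℝ) / 2 := by
  have hN0 : 0 < N := by omega
  have hN' : (100 : ℝ) ≤ N := by exact_mod_cast hN
  constructor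
  · rintro ⟨h1, h2⟩
    obtain ⟨j, hj | hj⟩ := rot_case N hN0 x
    · refine ⟨j, ?_, hj.2.1⟩
      by_contra hc
      rw [not_lt] at hc
      have h3 := rot_nonneg N hN0 (x + 1 - j * N) (by linarith [hj.1]) (by linarith)
      rw [← rot_sin N hN0 (x + 1) j] at h3
      linarith
    · linarith [hj.2.2]
  · rintro ⟨j, h1, h2⟩
    constructor
    · rw [rot_sin N hN0 x j]
      exact rot_nonneg N hN0 _ (by linarith) h2
    · rw [rot_sin N hN0 (x + 1) j]
      exact rot_neg N hN0 _ (by linarith) (by linarith)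

/-- right crossings -/
theorem rot_right (N : ℕ) (hN : 100 ≤ N) (x : ℝ) :
    (Real.sin (2 * Real.pi * x / N) < 0 ∧ 0 ≤ Real.sin (2 * Real.pi * (x + 1) / N)) ↔
    ∃ j : ℤ, (N : ℝ) - 1 ≤ x - j * N ∧ x - j * N < N := by
  have hN0 : 0 < N := by omega
  have hN' : (100 : ℝ) ≤ N := by exact_mod_cast hN
  constructor
  · rintro ⟨h1, h2⟩
    obtain ⟨j, hj | hj⟩ := rot_case N hN0 x
    · linarith [hj.2.2]
    · refine ⟨j, ?_, hj.2.1⟩
      by_contra hc
      rw [not_le] at hc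
      have h3 := rot_neg N hN0 (x + 1 - j * N) (by linarith [hj.1]) (by linarith)
      rw [← rot_sin N hN0 (x + 1) j] at h3
      linarith
  · rintro ⟨j, h1, h2⟩
    constructor
    · rw [rot_sin N hN0 x j]
      exact rot_neg N hN0 _ (by linarith) h2
    · rw [rot_sin N hN0 (x + 1) (j + 1)]
      refine rot_nonneg N hN0 _ ?_ ?_
      · push_cast
        linarith
      · push_cast
        linarith

theorem rot_cos_neg (N : ℕ) (hN : 100 ≤ N) (y : ℝ) (h1 : (N : ℝ) / 2 - 1 < y)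
    (h2 : y ≤ (N : ℝ) / 2 + 1) : Real.cos (2 * Real.pi * y / N) < 0 := by
  have hN' : (100 : ℝ) ≤ N := by exact_mod_cast hN
  have hN0 : (0 : ℝ) < N := by linarith
  have hpi := Real.pi_pos
  apply Real.cos_neg_of_pi_div_two_lt_of_lt
  · rw [lt_div_iff₀ hN0]
    nlinarith
  · rw [div_lt_iff₀ hN0]
    nlinarith

theorem rot_cos_pos (N : ℕ) (hN : 100 ≤ N) (y : ℝ) (h1 : -1 ≤ y) (h2 : y ≤ 1) :
    0 < Real.cos (2 * Real.pi * y / N) := by
  have hN' : (100 : ℝ) ≤ N := by exact_mod_cast hN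
  have hN0 : (0 : ℝ) < N := by linarith
  have hpi := Real.pi_pos
  apply Real.cos_pos_of_mem_Ioo
  constructor
  · rw [lt_div_iff₀ hN0]
    nlinarith
  · rw [div_lt_iff₀ hN0]
    nlinarith

theorem pf_ROT : T_ROT := by
  intro N a u hN ha hu
  have hN0 : 0 < N := by omega
  have hN' : (100 : ℝ) ≤ N := by exact_mod_cast hN
  have hNp : (0 : ℝ) < N := by linarith
  have hpi := Real.pi_pos
  set x₀ : ℝ := N * a.arg / (2 * Real.pi) with hx₀
  -- polar coordinates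
  have hpol : ∀ k : ℕ, ∃ ρ : ℝ, 0 < ρ ∧
      (u k).im = ρ * Real.sin (2 * Real.pi * (x₀ + k) / N) ∧
      (u k).re = ρ * Real.cos (2 * Real.pi * (x₀ + k) / N) := by
    intro k
    have h1 : u k = ((‖a‖ : ℝ) : ℂ) * Complex.exp ((a.arg : ℂ) * Complex.I +
        (((k : ℝ) / N : ℝ) : ℂ) * (2 * Real.pi * Complex.I - Real.log 2)) := by
      rw [hu k, Complex.exp_add, ← mul_assoc, Complex.norm_mul_exp_arg_mul_I]
    set w : ℂ := (a.arg : ℂ) * Complex.I +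
        (((k : ℝ) / N : ℝ) : ℂ) * (2 * Real.pi * Complex.I - Real.log 2) with hw
    have h2 : w.im = 2 * Real.pi * (x₀ + k) / N := by
      have e1 : (((k : ℝ) / N : ℝ) : ℂ) * (2 * Real.pi * Complex.I - Real.log 2) =
        (((k : ℝ) / N : ℝ) : ℂ) * cc := rfl
      rw [hw, e1, Complex.add_im, Complex.im_ofReal_mul, Complex.im_ofReal_mul, cc_im,
        Complex.I_im, hx₀]
      field_simp
    refine ⟨‖a‖ * Real.exp w.re, mul_pos (norm_pos_iff.mpr ha) (Real.exp_pos _), ?_, ?_⟩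
    · rw [h1, Complex.im_ofReal_mul, Complex.exp_im, h2]
      ring
    · rw [h1, Complex.re_ofReal_mul, Complex.exp_re, h2]
      ring
  have him : ∀ k : ℕ, (0 ≤ (u k).im ↔ 0 ≤ Real.sin (2 * Real.pi * (x₀ + k) / N)) := by
    intro k
    obtain ⟨ρ, hρ, h1, -⟩ := hpol k
    rw [h1]
    exact mul_nonneg_iff_of_pos_left hρ
  have him' : ∀ k : ℕ, ((u k).im < 0 ↔ Real.sin (2 * Real.pi * (x₀ + k) / N) < 0) := by
    intro k
    rw [← not_le, ← not_le, him k]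
  have hsucc : ∀ k : ℕ, x₀ + ((k + 1 : ℕ) : ℝ) = x₀ + k + 1 := by
    intro k
    push_cast
    ring
  have hleft : ∀ k : ℕ, (0 ≤ (u k).im ∧ (u (k + 1)).im < 0) ↔
      ∃ j : ℤ, (N : ℝ) / 2 - 1 < x₀ + k - j * N ∧ x₀ + k - j * N ≤ (N : ℝ) / 2 := by
    intro k
    rw [him k, him' (k + 1), hsucc, rot_left N hN]
  have hright : ∀ k : ℕ, ((u k).im < 0 ∧ 0 ≤ (u (k + 1)).im) ↔
      ∃ j : ℤ, (N : ℝ) - 1 ≤ x₀ + k - j * N ∧ x₀ + k - j * N < N := by
    intro k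
    rw [him' k, him (k + 1), hsucc, rot_right N hN]
  obtain ⟨κ, hκ, hκ2⟩ := rot_arith N hN0 ⌊(N : ℝ) / 2 - x₀⌋
  obtain ⟨κ', hκ', hκ'2⟩ := rot_arith N hN0 ⌈(N : ℝ) - 1 - x₀⌉
  refine ⟨κ, κ', hκ, hκ', fun k => ?_, fun k => ?_, fun k h1 h2 => ?_, fun k h1 h2 => ?_⟩
  · rw [hleft k, ← hκ2 k]
    refine exists_congr fun j => ?_
    rw [eq_comm, Int.floor_eq_iff]
    push_cast
    constructor
    · rintro ⟨h1, h2⟩
      constructor <;> linarith
    · rintro ⟨h1, h2⟩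
      constructor <;> linarith
  · rw [hright k, ← hκ'2 k]
    refine exists_congr fun j => ?_
    rw [eq_comm, Int.ceil_eq_iff]
    push_cast
    constructor
    · rintro ⟨h1, h2⟩
      constructor <;> linarith
    · rintro ⟨h1, h2⟩
      constructor <;> linarith
  · obtain ⟨j, hj1, hj2⟩ := (hleft k).mp ⟨h1, h2⟩
    obtain ⟨ρ, hρ, -, e1⟩ := hpol k
    obtain ⟨ρ', hρ', -, e2⟩ := hpol (k + 1)
    rw [e1, e2, hsucc, rot_cos N hN0 (x₀ + k) j, rot_cos N hN0 (x₀ + k + 1) j]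
    constructor
    · exact mul_neg_of_pos_of_neg hρ (rot_cos_neg N hN _ hj1 (by linarith))
    · exact mul_neg_of_pos_of_neg hρ' (rot_cos_neg N hN _ (by linarith) (by linarith))
  · obtain ⟨j, hj1, hj2⟩ := (hright k).mp ⟨h1, h2⟩
    obtain ⟨ρ, hρ, -, e1⟩ := hpol k
    obtain ⟨ρ', hρ', -, e2⟩ := hpol (k + 1)
    rw [e1, e2, hsucc, rot_cos N hN0 (x₀ + k) (j + 1), rot_cos N hN0 (x₀ + k + 1) (j + 1)]
    push_cast
    constructor
    · exact mul_pos hρ (rot_cos_pos N hN _ (by linarith) (by linarith))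
    · exact mul_pos hρ' (rot_cos_pos N hN _ (by linarith) (by linarith))

end Pool.Agent.H63.BPQ
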