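import Pool.Agent.H63.BPQ.Base

/-! # Board bpq_modules, row SCL: the spiral is self-similar -/

set_option autoImplicit false

open Finset Pool.Agent.H55.BP Pool.Agent.H55.BQ

namespace Pool.Agent.H63.BPQ

theorem pf_SCL : T_SCL := by
  intro n ι Y N hN e k m hk
  have hN' : (N : ℝ) ≠ 0 := by exact_mod_cast hN.ne'
  have h1 := one_le_div hN hk
  have h2 : (1 : ℝ) ≤ ((k + m * N : ℕ) : ℝ) / N := one_le_div hN (by omega)
  unfold Sys.z
  rw [spi' Y e _ h1, spi' Y e _ h2]
  have h3 : (((k + m * N : ℕ) : ℝ) / N - 1 : ℝ) = ((k : ℝ) / N - 1) + m := by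
    push_cast
    field_simp
    ring
  rw [h3]
  push_cast
  rw [add_mul, Complex.exp_add, exp_nat_cc]
  ring

end Pool.Agent.H63.BPQ
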