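import Pool.Agent.H55.BQ.Sph

/-! # Board bpq_modules, row SLS: geodesic drawings -/

set_option autoImplicit false

open Finset Pool.Agent.H55.BP Pool.Agent.H55.BQ

namespace Pool.Agent.H63.BPQ

/-- not on the vertical axis -/
def Off (a : ℝ × ℝ × ℝ) : Prop := a.1 ≠ 0 ∨ a.2.1 ≠ 0

/-- multiples -/
def smv (c : ℝ) (a : ℝ × ℝ × ℝ) : ℝ × ℝ × ℝ := (c * a.1, c * a.2.1, c * a.2.2)

/-- segments -/
def lnv (a b : ℝ × ℝ × ℝ) (t : ℝ) : ℝ × ℝ × ℝ :=
  ((1 - t) * a.1 + t * b.1, (1 - t) * a.2.1 + t * b.2.1, (1 - t) * a.2.2 + t * b.2.2)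

/-- the determinant with the vertical vector -/
def dxy (a b : ℝ × ℝ × ℝ) : ℝ := detR a b (0, 0, 1)

theorem dxy_eq (a b : ℝ × ℝ × ℝ) : dxy a b = a.1 * b.2.1 - a.2.1 * b.1 := by
  unfold dxy detR
  ring

theorem nrm (a : ℝ × ℝ × ℝ) (h : Off a) :
    0 < √(a.1 ^ 2 + a.2.1 ^ 2 + a.2.2 ^ 2) ∧
    0 < √(a.1 ^ 2 + a.2.1 ^ 2 + a.2.2 ^ 2) - a.2.2 ∧
    √(a.1 ^ 2 + a.2.1 ^ 2 + a.2.2 ^ 2) ^ 2 = a.1 ^ 2 + a.2.1 ^ 2 + a.2.2 ^ 2 := by
  have h1 : 0 < a.1 ^ 2 + a.2.1 ^ 2 := by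
    rcases h with h | h
    · have := sq_pos_of_ne_zero h
      have := sq_nonneg a.2.1
      linarith
    · have := sq_pos_of_ne_zero h
      have := sq_nonneg a.1
      linarith
  have h2 := sq_nonneg a.2.2
  have h3 : √(a.1 ^ 2 + a.2.1 ^ 2 + a.2.2 ^ 2) ^ 2 = a.1 ^ 2 + a.2.1 ^ 2 + a.2.2 ^ 2 :=
    Real.sq_sqrt (by linarith)
  have h4 : 0 < √(a.1 ^ 2 + a.2.1 ^ 2 + a.2.2 ^ 2) := Real.sqrt_pos.mpr (by linarith)
  refine ⟨h4, ?_, h3⟩
  rw [sub_pos]
  by_contra hc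
  rw [not_lt] at hc
  nlinarith

/-- the stereographic coordinates determine the ray -/
theorem phi_rec (a : ℝ × ℝ × ℝ) (h : Off a) : ∃ r : ℝ, 0 < r ∧
    a.1 * (1 + ((phi a).re ^ 2 + (phi a).im ^ 2)) = 2 * r * (phi a).re ∧
    a.2.1 * (1 + ((phi a).re ^ 2 + (phi a).im ^ 2)) = 2 * r * (phi a).im ∧
    a.2.2 * (1 + ((phi a).re ^ 2 + (phi a).im ^ 2)) =
      r * (((phi a).re ^ 2 + (phi a).im ^ 2) - 1) := by
  obtain ⟨h1, h2, h3⟩ := nrm a h
  set r := √(a.1 ^ 2 + a.2.1 ^ 2 + a.2.2 ^ 2) with hr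
  have hX : (phi a).re = a.1 / (r - a.2.2) := rfl
  have hY : (phi a).im = a.2.1 / (r - a.2.2) := rfl
  have hD : r - a.2.2 ≠ 0 := h2.ne'
  have hq : (phi a).re ^ 2 + (phi a).im ^ 2 = (r + a.2.2) / (r - a.2.2) := by
    rw [hX, hY]
    field_simp
    nlinarith
  refine ⟨r, h1, ?_, ?_, ?_⟩
  · rw [hq, hX]
    field_simp
    ring
  · rw [hq, hY]
    field_simp
    ring
  · rw [hq]
    field_simp
    ring

theorem phi_ray (a b : ℝ × ℝ × ℝ) (ha : Off a) (hb : Off b) (h : phi a = phi b) :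
    ∃ c : ℝ, 0 < c ∧ a = smv c b := by
  obtain ⟨r, hr, a1, a2, a3⟩ := phi_rec a ha
  obtain ⟨s, hs, b1, b2, b3⟩ := phi_rec b hb
  rw [h] at a1 a2 a3
  have hq : 0 < 1 + ((phi b).re ^ 2 + (phi b).im ^ 2) := by positivity
  set q := 1 + ((phi b).re ^ 2 + (phi b).im ^ 2) with hqd
  refine ⟨r / s, div_pos hr hs, ?_⟩
  have hs' := hs.ne'
  have key : ∀ x y w : ℝ, x * q = r * w → y * q = s * w → x = r / s * y := by
    intro x y w hx hy
    have h1 : (s * x - r * y) * q = 0 := by linear_combination s * hx - r * hy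
    rcases mul_eq_zero.mp h1 with h2 | h2
    · rw [div_mul_eq_mul_div, eq_div_iff hs']
      linarith
    · exact absurd h2 hq.ne'
  refine Prod.ext ?_ (Prod.ext ?_ ?_)
  · exact key _ _ (2 * (phi b).re) (by linarith) (by linarith)
  · exact key _ _ (2 * (phi b).im) (by linarith) (by linarith)
  · exact key _ _ _ a3 b3

theorem off_lnv (a b : ℝ × ℝ × ℝ) (h : dxy a b ≠ 0) (t : ℝ) : Off (lnv a b t) := by
  by_contra hc
  unfold Off at hc
  push Not at hc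
  obtain ⟨h1, h2⟩ := hc
  have h1' : (1 - t) * a.1 + t * b.1 = 0 := h1
  have h2' : (1 - t) * a.2.1 + t * b.2.1 = 0 := h2
  rw [dxy_eq] at h
  have e1 : (1 - t) * (a.1 * b.2.1 - a.2.1 * b.1) = 0 := by
    linear_combination b.2.1 * h1' - b.1 * h2'
  have e2 : t * (a.1 * b.2.1 - a.2.1 * b.1) = 0 := by
    linear_combination a.1 * h2' - a.2.1 * h1'
  rcases mul_eq_zero.mp e2 with h3 | h3
  · rw [h3] at e1
    apply h
    linarith
  · exact h h3

theorem dxy_lnv_left (a b : ℝ × ℝ × ℝ) (t : ℝ) : dxy (lnv a b t) b = (1 - t) * dxy a b := by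
  rw [dxy_eq, dxy_eq]
  unfold lnv
  ring

theorem dxy_lnv_right (a b : ℝ × ℝ × ℝ) (t : ℝ) : dxy a (lnv a b t) = t * dxy a b := by
  rw [dxy_eq, dxy_eq]
  unfold lnv
  ring

theorem dxy_smv_left (a b : ℝ × ℝ × ℝ) (c : ℝ) : dxy (smv c a) b = c * dxy a b := by
  rw [dxy_eq, dxy_eq]
  unfold smv
  ring

theorem dxy_smv_right (a b : ℝ × ℝ × ℝ) (c : ℝ) : dxy a (smv c b) = c * dxy a b := by
  rw [dxy_eq, dxy_eq]
  unfold smv
  ring

theorem dxy_swap (a b : ℝ × ℝ × ℝ) : dxy b a = -dxy a b := by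
  rw [dxy_eq, dxy_eq]
  ring

theorem dxy_self (a : ℝ × ℝ × ℝ) : dxy a a = 0 := by
  rw [dxy_eq]
  ring

/-- the arcs -/
noncomputable def arc3 (a b : ℝ × ℝ × ℝ) (t : ℝ) : ℂ := phi (lnv a b t)

theorem lnv_rev (a b : ℝ × ℝ × ℝ) (t : ℝ) : lnv b a t = lnv a b (1 - t) := by
  unfold lnv
  refine Prod.ext ?_ (Prod.ext ?_ ?_) <;> simp only [] <;> ring

theorem arc3_rev (a b : ℝ × ℝ × ℝ) (t : ℝ) : arc3 b a t = arc3 a b (1 - t) := by
  unfold arc3
  rw [lnv_rev]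

theorem img3_symm {a b : ℝ × ℝ × ℝ} {z : ℂ} (h : z ∈ arc3 a b '' Set.Ioo 0 1) :
    z ∈ arc3 b a '' Set.Ioo 0 1 := by
  obtain ⟨t, ⟨h0, h1⟩, rfl⟩ := h
  refine ⟨1 - t, ⟨by linarith, by linarith⟩, ?_⟩
  rw [arc3_rev, sub_sub_cancel]

theorem lnv_zero (a b : ℝ × ℝ × ℝ) : lnv a b 0 = a := by
  unfold lnv
  refine Prod.ext ?_ (Prod.ext ?_ ?_) <;> simp

theorem lnv_one (a b : ℝ × ℝ × ℝ) : lnv a b 1 = b := by
  unfold lnv
  refine Prod.ext ?_ (Prod.ext ?_ ?_) <;> simp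

theorem arc3_cont (a b : ℝ × ℝ × ℝ) (h : dxy a b ≠ 0) : Continuous (arc3 a b) := by
  have hx : Continuous fun t => (lnv a b t).1 := by
    unfold lnv
    fun_prop
  have hy : Continuous fun t => (lnv a b t).2.1 := by
    unfold lnv
    fun_prop
  have hz : Continuous fun t => (lnv a b t).2.2 := by
    unfold lnv
    fun_prop
  have hD : Continuous fun t =>
      √((lnv a b t).1 ^ 2 + (lnv a b t).2.1 ^ 2 + (lnv a b t).2.2 ^ 2) - (lnv a b t).2.2 :=
    (Real.continuous_sqrt.comp (((hx.pow 2).add (hy.pow 2)).add (hz.pow 2))).sub hz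
  have hne : ∀ t, √((lnv a b t).1 ^ 2 + (lnv a b t).2.1 ^ 2 + (lnv a b t).2.2 ^ 2) -
      (lnv a b t).2.2 ≠ 0 := fun t => (nrm _ (off_lnv a b h t)).2.1.ne'
  exact Complex.equivRealProdCLM.symm.continuous.comp
    ((hx.div hD hne).prodMk (hy.div hD hne))

theorem arc3_inj (a b : ℝ × ℝ × ℝ) (h : dxy a b ≠ 0) (s t : ℝ) (hst : arc3 a b s = arc3 a b t) :
    s = t := by
  obtain ⟨c, hc, h1⟩ := phi_ray _ _ (off_lnv a b h s) (off_lnv a b h t) hst
  have e1 := dxy_lnv_left a b s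
  have e2 := dxy_lnv_right a b s
  rw [h1, dxy_smv_left, dxy_lnv_left] at e1
  rw [h1, dxy_smv_right, dxy_lnv_right] at e2
  have e3 : (c * (1 - t) - (1 - s)) * dxy a b = 0 := by linear_combination e1
  have e4 : (c * t - s) * dxy a b = 0 := by linear_combination e2
  have e5 := (mul_eq_zero.mp e3).resolve_right h
  have e6 := (mul_eq_zero.mp e4).resolve_right h
  have e7 : c = 1 := by linarith
  rw [e7] at e6
  linarith

/-- the equation of a meeting point -/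
theorem meet {a b c d : ℝ × ℝ × ℝ} {z : ℂ} (hab : dxy a b ≠ 0) (hcd : dxy c d ≠ 0)
    (h1 : z ∈ arc3 a b '' Set.Ioo 0 1) (h2 : z ∈ arc3 c d '' Set.Ioo 0 1) :
    ∃ t ∈ Set.Ioo (0 : ℝ) 1, ∃ s ∈ Set.Ioo (0 : ℝ) 1, ∃ κ : ℝ, 0 < κ ∧
      lnv a b t = smv κ (lnv c d s) ∧ z = arc3 a b t := by
  obtain ⟨t, ht, rfl⟩ := h1
  obtain ⟨s, hs, hst⟩ := h2
  obtain ⟨κ, hκ, h3⟩ := phi_ray _ _ (off_lnv a b hab t) (off_lnv c d hcd s) hst.symm
  exact ⟨t, ht, s, hs, κ, hκ, h3, rfl⟩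

theorem det_lnv3 (p q a b : ℝ × ℝ × ℝ) (t : ℝ) :
    detR p q (lnv a b t) = (1 - t) * detR p q a + t * detR p q b := by
  unfold detR lnv
  ring

theorem det_smv3 (p q a : ℝ × ℝ × ℝ) (c : ℝ) : detR p q (smv c a) = c * detR p q a := by
  unfold detR smv
  ring

theorem det_cyc (a b c : ℝ × ℝ × ℝ) : detR b c a = detR a b c := by
  unfold detR
  ring

theorem det_swap (a b c : ℝ × ℝ × ℝ) : detR b a c = -detR a b c := by
  unfold detR
  ring

theorem det_s12 (a b : ℝ × ℝ × ℝ) : detR a a b = 0 := by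
  unfold detR
  ring

theorem det_s13 (a b : ℝ × ℝ × ℝ) : detR a b a = 0 := by
  unfold detR
  ring

theorem det_s23 (a b : ℝ × ℝ × ℝ) : detR a b b = 0 := by
  unfold detR
  ring

/-- the four relations -/
theorem rels {a b c d : ℝ × ℝ × ℝ} {t s κ : ℝ} (h : lnv a b t = smv κ (lnv c d s)) :
    (1 - t) * detR a c d + t * detR b c d = 0 ∧
    (1 - s) * κ * detR a b c + s * κ * detR a b d = 0 ∧
    (1 - t) * detR a b c = s * κ * detR b c d ∧
    t * detR a b c = -(s * κ * detR a c d) := by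
  have h1 := congrArg (detR c d) h
  have h2 := congrArg (detR a b) h
  have h3 := congrArg (detR b c) h
  have h4 := congrArg (detR a c) h
  have e1 : detR c d a = detR a c d := by
    unfold detR
    ring
  have e2 : detR c d b = detR b c d := by
    unfold detR
    ring
  rw [det_lnv3, det_smv3, det_lnv3, det_s13, det_s23, e1, e2] at h1
  rw [det_lnv3, det_smv3, det_lnv3, det_s13, det_s23] at h2
  rw [det_lnv3, det_smv3, det_lnv3, det_s13, det_s23, det_cyc] at h3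
  rw [det_lnv3, det_smv3, det_lnv3, det_s13, det_s23] at h4
  have h5 : detR a c b = -detR a b c := by
    unfold detR
    ring
  rw [h5] at h4
  refine ⟨by linarith, by linarith, by linarith, by linarith⟩

/-- two arcs with a common end and no common plane do not meet -/
theorem no_common3 {a b d : ℝ × ℝ × ℝ} {z : ℂ} (hab : dxy a b ≠ 0) (had : dxy a d ≠ 0)
    (h : detR a b d ≠ 0) (h1 : z ∈ arc3 a b '' Set.Ioo 0 1) (h2 : z ∈ arc3 a d '' Set.Ioo 0 1) :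
    False := by
  obtain ⟨t, ht, s, hs, κ, hκ, he, -⟩ := meet hab had h1 h2
  obtain ⟨-, r2, -, -⟩ := rels he
  rw [det_s13] at r2
  have h3 : s * κ * detR a b d = 0 := by linarith
  rcases mul_eq_zero.mp h3 with h4 | h4
  · exact absurd h4 (mul_pos hs.1 hκ).ne'
  · exact h h4

theorem crs_of_meet {a b c d : ℝ × ℝ × ℝ} {z : ℂ} (hab : dxy a b ≠ 0) (hcd : dxy c d ≠ 0)
    (h : detR a b c ≠ 0) (h1 : z ∈ arc3 a b '' Set.Ioo 0 1) (h2 : z ∈ arc3 c d '' Set.Ioo 0 1) :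
    Crs a b c d := by
  obtain ⟨t, ht, s, hs, κ, hκ, he, -⟩ := meet hab hcd h1 h2
  obtain ⟨-, r2, r3, r4⟩ := rels he
  have ht1 : 0 < 1 - t := by linarith [ht.2]
  have ht0 : 0 < t := ht.1
  have hs1 : 0 < (1 - s) * κ := mul_pos (by linarith [hs.2]) hκ
  have hs0 : 0 < s * κ := mul_pos hs.1 hκ
  rcases lt_or_gt_of_ne h with h3 | h3
  · right
    refine ⟨?_, ?_, ?_, h3⟩
    · have := mul_neg_of_pos_of_neg ht1 h3
      by_contra hc
      have := mul_nonneg hs0.le (not_lt.mp hc)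
      linarith
    · have := mul_neg_of_pos_of_neg ht0 h3
      by_contra hc
      have := mul_nonneg hs0.le (neg_nonneg.mpr (not_lt.mp hc))
      linarith
    · have := mul_neg_of_pos_of_neg hs1 h3
      by_contra hc
      have := mul_nonneg hs0.le (neg_nonneg.mpr (not_lt.mp hc))
      linarith
  · left
    refine ⟨?_, ?_, ?_, h3⟩
    · have := mul_pos ht1 h3
      by_contra hc
      have := mul_nonneg hs0.le (neg_nonneg.mpr (not_lt.mp hc))
      linarith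
    · have := mul_pos ht0 h3
      by_contra hc
      have := mul_nonneg hs0.le (not_lt.mp hc)
      linarith
    · have := mul_pos hs1 h3
      by_contra hc
      have := mul_nonneg hs0.le (not_lt.mp hc)
      linarith

/-- two arcs not in a common plane have at most one common point -/
theorem unique3 {a b c d : ℝ × ℝ × ℝ} {z z' : ℂ} (hab : dxy a b ≠ 0) (hcd : dxy c d ≠ 0)
    (h : detR a c d ≠ 0) (h1 : z ∈ arc3 a b '' Set.Ioo 0 1) (h2 : z ∈ arc3 c d '' Set.Ioo 0 1)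
    (h1' : z' ∈ arc3 a b '' Set.Ioo 0 1) (h2' : z' ∈ arc3 c d '' Set.Ioo 0 1) : z = z' := by
  obtain ⟨t, ht, s, hs, κ, hκ, he, rfl⟩ := meet hab hcd h1 h2
  obtain ⟨t', ht', s', hs', κ', hκ', he', rfl⟩ := meet hab hcd h1' h2'
  have r := (rels he).1
  have r' := (rels he').1
  have h5 : (t' - t) * detR a c d = 0 := by linear_combination t' * r - t * r'
  rcases mul_eq_zero.mp h5 with h6 | h6
  · rw [show t = t' by linarith]
  · exact absurd h6 h

section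
variable {V : Type} {G : SimpleGraph V} {P : V → ℝ × ℝ × ℝ}

theorem img3_sym2 {a b a' b' : V} {z : ℂ} (h : s(a', b') = s(a, b))
    (hz : z ∈ arc3 (P a') (P b') '' Set.Ioo 0 1) : z ∈ arc3 (P a) (P b) '' Set.Ioo 0 1 := by
  rcases Sym2.eq_iff.1 h with ⟨rfl, rfl⟩ | ⟨rfl, rfl⟩
  · exact hz
  · exact img3_symm hz

theorem cross_ne3 (hd : ∀ u v, G.Adj u v → dxy (P u) (P v) ≠ 0)
    (ho : ∀ u v w, G.Adj u v → w ≠ u → w ≠ v → detR (P u) (P v) (P w) ≠ 0)
    {a b d : V} {z : ℂ} (hab : G.Adj a b) (had : G.Adj a d) (hbd : b ≠ d)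
    (h1 : z ∈ arc3 (P a) (P b) '' Set.Ioo 0 1) (h2 : z ∈ arc3 (P a) (P d) '' Set.Ioo 0 1) : False :=
  no_common3 (hd a b hab) (hd a d had) (ho a b d hab had.ne' (Ne.symm hbd)) h1 h2

theorem distinct3 (hd : ∀ u v, G.Adj u v → dxy (P u) (P v) ≠ 0)
    (ho : ∀ u v w, G.Adj u v → w ≠ u → w ≠ v → detR (P u) (P v) (P w) ≠ 0)
    {a b c d : V} {z : ℂ} (hab : G.Adj a b) (hcd : G.Adj c d) (hne : s(a, b) ≠ s(c, d))
    (h1 : z ∈ arc3 (P a) (P b) '' Set.Ioo 0 1) (h2 : z ∈ arc3 (P c) (P d) '' Set.Ioo 0 1) :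
    a ≠ c ∧ a ≠ d ∧ b ≠ c ∧ b ≠ d := by
  refine ⟨?_, ?_, ?_, ?_⟩
  · rintro rfl
    refine cross_ne3 hd ho hab hcd ?_ h1 h2
    rintro rfl
    exact hne rfl
  · rintro rfl
    refine cross_ne3 hd ho hab hcd.symm ?_ h1 (img3_symm h2)
    rintro rfl
    exact hne Sym2.eq_swap
  · rintro rfl
    refine cross_ne3 hd ho hab.symm hcd ?_ (img3_symm h1) h2
    rintro rfl
    exact hne Sym2.eq_swap
  · rintro rfl
    refine cross_ne3 hd ho hab.symm hcd.symm ?_ (img3_symm h1) (img3_symm h2)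
    rintro rfl
    exact hne rfl

theorem cross_maps3 (hd : ∀ u v, G.Adj u v → dxy (P u) (P v) ≠ 0)
    (ho : ∀ u v w, G.Adj u v → w ≠ u → w ≠ v → detR (P u) (P v) (P w) ≠ 0) :
    Set.MapsTo Prod.fst (crossSet G fun u v t => arc3 (P u) (P v) t) (badPairs3 G P) := by
  rintro ⟨x, z⟩ ⟨a, b, c, d, hab, hcd, hne, hx, h1, h2⟩
  obtain ⟨e1, e2, e3, e4⟩ := distinct3 hd ho hab hcd hne h1 h2
  exact ⟨a, b, c, d, hab, hcd, e1, e2, e3, e4, hx,
    crs_of_meet (hd a b hab) (hd c d hcd) (ho a b c hab e1.symm e3.symm) h1 h2⟩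

theorem cross_inj3 (hd : ∀ u v, G.Adj u v → dxy (P u) (P v) ≠ 0)
    (ho : ∀ u v w, G.Adj u v → w ≠ u → w ≠ v → detR (P u) (P v) (P w) ≠ 0) :
    Set.InjOn Prod.fst (crossSet G fun u v t => arc3 (P u) (P v) t) := by
  rintro ⟨x, z⟩ ⟨a, b, c, d, hab, hcd, hne, hx, h1, h2⟩ ⟨x', z'⟩
    ⟨a', b', c', d', hab', hcd', hne', hx', h1', h2'⟩ hxx
  have hxx' : x = x' := hxx
  subst hxx'
  obtain ⟨e1, e2, e3, e4⟩ := distinct3 hd ho hab hcd hne h1 h2
  have hh : s(s(a, b), s(c, d)) = s(s(a', b'), s(c', d')) := hx.symm.trans hx'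
  have hor : detR (P a) (P c) (P d) ≠ 0 := by
    have := ho c d a hcd e1 e2
    rw [det_cyc] at this
    exact this
  rcases Sym2.eq_iff.1 hh with ⟨g1, g2⟩ | ⟨g1, g2⟩
  · have hz : z = z' := unique3 (hd a b hab) (hd c d hcd) hor h1 h2 (img3_sym2 g1.symm h1')
      (img3_sym2 g2.symm h2')
    rw [hz]
  · have hz : z = z' := unique3 (hd a b hab) (hd c d hcd) hor h1 h2 (img3_sym2 g1.symm h2')
      (img3_sym2 g2.symm h1')
    rw [hz]

end

theorem pf_SLS : T_SLS := by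
  intro V _ G P hoff hray hd ho
  have hd' : ∀ u v, G.Adj u v → dxy (P u) (P v) ≠ 0 := hd
  have hfin : (badPairs3 G P).Finite := Set.toFinite _
  have hfin' : (crossSet G fun u v t => arc3 (P u) (P v) t).Finite :=
    Set.Finite.of_injOn (cross_maps3 hd' ho) (cross_inj3 hd' ho) hfin
  refine ⟨{
    pt := fun v => phi (P v)
    arc := fun u v t => arc3 (P u) (P v) t
    pt_inj := ?_
    cont := fun u v huv => (arc3_cont _ _ (hd' u v huv)).continuousOn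
    zero := fun u v _ => by
      unfold arc3
      rw [lnv_zero]
    one := fun u v _ => by
      unfold arc3
      rw [lnv_one]
    rev := fun u v _ t _ => arc3_rev _ _ _
    inj := fun u v huv s _ t _ hst => arc3_inj _ _ (hd' u v huv) s t hst
    avoid := ?_
    fin := hfin' }, ?_⟩
  · intro u v huv
    by_contra hne
    obtain ⟨c, hc, h1⟩ := phi_ray _ _ (hoff u) (hoff v) huv
    exact hray u v hne c hc h1
  · intro u v huv t ht w hw
    obtain ⟨c, hc, h1⟩ := phi_ray _ _ (off_lnv _ _ (hd' u v huv) t) (hoff w) hw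
    by_cases h2 : w = u
    · subst h2
      have e1 := dxy_lnv_right (P w) (P v) t
      rw [h1, dxy_smv_right, dxy_self, mul_zero] at e1
      rcases mul_eq_zero.mp e1.symm with h3 | h3
      · exact ht.1.ne' h3
      · exact hd' w v huv h3
    · by_cases h3 : w = v
      · subst h3
        have e1 := dxy_lnv_left (P u) (P w) t
        rw [h1, dxy_smv_left, dxy_self, mul_zero] at e1
        rcases mul_eq_zero.mp e1.symm with h4 | h4
        · have := ht.2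
          linarith
        · exact hd' u w huv h4
      · have e1 := congrArg (detR (P u) (P v)) h1
        rw [det_lnv3, det_smv3, det_s13, det_s23] at e1
        have e2 : c * detR (P u) (P v) (P w) = 0 := by linarith
        rcases mul_eq_zero.mp e2 with h4 | h4
        · exact hc.ne' h4
        · exact ho u v w huv h2 h3 h4
  · exact Set.ncard_le_ncard_of_injOn Prod.fst (cross_maps3 hd' ho) (cross_inj3 hd' ho) hfin

end Pool.Agent.H63.BPQ
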