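import Pool.Agent.H55.BQ.Targets

/-!
# Board bpq_modules, rows SDL, SID, END, PRC
-/

set_option autoImplicit false

open Finset Pool.Agent.H55.BP Pool.Agent.H55.BQ

namespace Pool.Agent.H63.BPQ

theorem side_val (n : ℕ) [NeZero n] (x : ℝ) :
    (side n x).val = if 0 < x ∧ x < (n : ℝ) - 1 then ⌊x⌋₊ else n - 1 := by
  have hn : 0 < n := Nat.pos_of_neZero n
  unfold side
  rw [Fin.val_ofNat]
  apply Nat.mod_eq_of_lt
  split
  · next h =>
    rw [Nat.floor_lt h.1.le]
    linarith [h.2]
  · omega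

theorem side_in (n : ℕ) [NeZero n] (x : ℝ) (h : 0 < x ∧ x < (n : ℝ) - 1) :
    (side n x).val = ⌊x⌋₊ := by
  rw [side_val, if_pos h]

theorem side_out (n : ℕ) [NeZero n] (x : ℝ) (h : ¬ (0 < x ∧ x < (n : ℝ) - 1)) :
    (side n x).val = n - 1 := by
  rw [side_val, if_neg h]

theorem side_le (n : ℕ) [NeZero n] (x : ℝ) : (side n x).val ≤ n - 1 := by
  have := (side n x).isLt
  omega

/-- a side with a number `< n - 1` -/
theorem side_lt (n : ℕ) [NeZero n] (x : ℝ) (h : (side n x).val < n - 1) :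
    0 < x ∧ x < (n : ℝ) - 1 ∧ (side n x).val = ⌊x⌋₊ := by
  by_cases h1 : 0 < x ∧ x < (n : ℝ) - 1
  · exact ⟨h1.1, h1.2, side_in n x h1⟩
  · rw [side_out n x h1] at h
    exact absurd h (lt_irrefl _)

theorem lf_val (n : ℕ) [NeZero n] (hn : 2 ≤ n) (i : Fin n) :
    (lf n i).val = if i.val = 0 then n - 1 else i.val - 1 := by
  unfold lf
  have h1 : ((1 : Fin n)).val = 1 := by
    rw [Fin.val_one']
    exact Nat.mod_eq_of_lt (by omega)
  rw [Fin.sub_def]
  change (n - (1 : Fin n).val + i.val) % n = _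
  rw [h1]
  have hi := i.isLt
  split
  · next h =>
    rw [h]
    exact Nat.mod_eq_of_lt (by omega)
  · next h =>
    have e1 : n - 1 + i.val = n + (i.val - 1) := by omega
    rw [e1, Nat.add_mod_left]
    exact Nat.mod_eq_of_lt (by omega)

theorem th_pos (x : ℝ) (h : 0 < x) : th x = x / (1 + x) := by
  unfold th
  rw [if_pos h]

theorem th_neg (x : ℝ) (h : x < 0) : th x = 2 + x / (1 - x) := by
  unfold th
  rw [if_neg (not_lt.mpr h.le)]

theorem th_lt_pos (x y : ℝ) (hx : 0 < x) (hxy : x < y) : th x < th y := by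
  rw [th_pos x hx, th_pos y (hx.trans hxy), div_lt_div_iff₀ (by linarith) (by linarith)]
  nlinarith

theorem th_lt_neg (x y : ℝ) (hy : y < 0) (hxy : x < y) : th x < th y := by
  rw [th_neg x (hxy.trans hy), th_neg y hy, add_lt_add_iff_left,
    div_lt_div_iff₀ (by linarith) (by linarith)]
  nlinarith

theorem th_lt_one (x : ℝ) (hx : 0 < x) : th x < 1 := by
  rw [th_pos x hx, div_lt_one (by linarith)]
  linarith

theorem one_lt_th (x : ℝ) (hx : x < 0) : 1 < th x := by
  rw [th_neg x hx]
  have : -1 < x / (1 - x) := by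
    rw [lt_div_iff₀ (by linarith)]
    linarith
  linarith

theorem th_lt_mix (x y : ℝ) (hx : 0 < x) (hy : y < 0) : th x < th y :=
  (th_lt_one x hx).trans (one_lt_th y hy)

theorem pf_PRC : T_PRC := by
  intro n _ T c₀ z h k
  induction k with
  | zero => exact h
  | succ k ih =>
    unfold cell
    split
    · next h1 => rw [ih, h1]
    · next h1 =>
      rw [T.par_r, ih]
      cases h2 : sg (z k) <;> cases h3 : sg (z (k + 1)) <;> simp_all

theorem pf_SDL : T_SDL := by
  intro n _ i x hn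
  have hi := i.isLt
  have hn1 : ((n - 1 : ℕ) : ℝ) = (n : ℝ) - 1 := by
    rw [Nat.cast_sub (by omega), Nat.cast_one]
  refine ⟨fun h1 h2 => ?_, fun h1 h2 => ?_⟩
  · apply Fin.ext
    rw [lf_val n hn]
    by_cases h : i.val = 0
    · rw [if_pos h]
      rw [h, Nat.cast_zero] at h2
      exact side_out n x fun h3 => absurd h3.1 (not_lt.mpr h2.le)
    · rw [if_neg h]
      have h3 : (1 : ℝ) ≤ i.val := by exact_mod_cast Nat.one_le_iff_ne_zero.mpr h
      have h4 : (i.val : ℝ) ≤ (n : ℝ) - 1 := by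
        rw [← hn1]
        exact_mod_cast (by omega : i.val ≤ n - 1)
      rw [side_in n x ⟨by linarith, by linarith⟩, Nat.floor_eq_iff (by linarith)]
      rw [Nat.cast_sub (by omega)]
      constructor
      · push_cast
        linarith
      · push_cast
        linarith
  · apply Fin.ext
    have h0 : (0 : ℝ) ≤ i.val := Nat.cast_nonneg _
    by_cases h : i.val = n - 1
    · rw [side_out n x, h]
      intro h3
      rw [h, hn1] at h1
      linarith [h3.2]
    · have h4 : (i.val : ℝ) + 1 ≤ (n : ℝ) - 1 := by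
        rw [← hn1]
        exact_mod_cast (by omega : i.val + 1 ≤ n - 1)
      rw [side_in n x ⟨by linarith, by linarith⟩, Nat.floor_eq_iff (by linarith)]
      exact ⟨h1.le, by linarith⟩

theorem pf_SID : T_SID := by
  intro n _ x y hx hy h
  have hn : 0 < n := Nat.pos_of_neZero n
  have h1 : (side n x).val < (side n y).val := h
  have h2 := side_le n y
  obtain ⟨hx0, hx1, hx2⟩ := side_lt n x (by omega)
  by_cases hy1 : 0 < y ∧ y < (n : ℝ) - 1
  · rw [hx2, side_in n y hy1] at h1
    refine th_lt_pos x y hx0 ?_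
    by_contra hcon
    exact absurd h1 (not_lt.mpr (Nat.floor_le_floor (not_lt.mp hcon)))
  · have hy0 : y ≠ 0 := by
      have := hy ⟨0, hn⟩
      simpa using this
    rcases lt_or_gt_of_ne hy0 with h3 | h3
    · exact th_lt_mix x y hx0 h3
    · refine th_lt_pos x y hx0 ?_
      by_contra hcon
      exact hy1 ⟨h3, by linarith⟩

theorem pf_END : T_END := by
  intro n _ i x y hn hx1 hx2 hy hxy
  have hi := i.isLt
  have hn1 : ((n - 1 : ℕ) : ℝ) = (n : ℝ) - 1 := by
    rw [Nat.cast_sub (by omega), Nat.cast_one]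
  have hy0 : y ≠ 0 := by
    have := hy ⟨0, by omega⟩
    simpa using this
  have hyn : y ≠ (n : ℝ) - 1 := by
    have := hy ⟨n - 1, by omega⟩
    rw [← hn1]
    exact this
  have hlf := lf_val n hn i
  by_cases h0 : i.val = 0
  · rw [if_pos h0] at hlf
    rw [h0, Nat.cast_zero] at hx1 hx2 hxy
    refine ⟨fun _ => ?_, fun h => ?_⟩
    · rcases lt_or_gt_of_ne hy0 with h3 | h3
      · refine th_lt_neg y x hx2 ?_
        by_contra hcon
        exact hxy ⟨not_lt.mp hcon, h3⟩
      · exact th_lt_mix y x h3 hx2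
    · have h1 : (lf n i).val < (side n y).val := h
      have h2 := side_le n y
      omega
  · rw [if_neg h0] at hlf
    have hi1 : (1 : ℝ) ≤ i.val := by exact_mod_cast Nat.one_le_iff_ne_zero.mpr h0
    have hx0 : 0 < x := by linarith
    have hile : (i.val : ℝ) ≤ (n : ℝ) - 1 := by
      rw [← hn1]
      exact_mod_cast (by omega : i.val ≤ n - 1)
    refine ⟨fun h => ?_, fun h => ?_⟩
    · have h1 : (side n y).val ≤ (lf n i).val := h
      obtain ⟨hy1, hy2, hy3⟩ := side_lt n y (by omega)
      have h2 : ⌊y⌋₊ < i.val := by omega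
      have h3 : y < i.val := (Nat.floor_lt hy1.le).mp h2
      refine th_lt_pos y x hy1 ?_
      by_contra hcon
      exact hxy ⟨not_lt.mp hcon, h3⟩
    · have h1 : (lf n i).val < (side n y).val := h
      by_cases hy1 : 0 < y ∧ y < (n : ℝ) - 1
      · rw [side_in n y hy1] at h1
        have h2 : i.val ≤ ⌊y⌋₊ := by omega
        have h3 : (i.val : ℝ) ≤ y := (Nat.le_floor_iff hy1.1.le).mp h2
        exact th_lt_pos x y hx0 (by linarith)
      · rcases lt_or_gt_of_ne hy0 with h3 | h3
        · exact th_lt_mix x y hx0 h3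
        · refine th_lt_pos x y hx0 ?_
          by_contra hcon
          exact hy1 ⟨h3, lt_of_le_of_ne (by linarith) hyn⟩

end Pool.Agent.H63.BPQ
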