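import Pool.Agent.H55.BQ.Targets

/-! # Board bpq_modules, row TT2: twice as many objects with twice as many colours -/

set_option autoImplicit false

open Finset Pool.Agent.H55.BP Pool.Agent.H55.BQ

namespace Pool.Agent.H63.BPQ

theorem two_mod (p x ε : ℕ) (hp : 0 < p) (hε : ε < 2) :
    (2 * x + ε) % (2 * p) = 2 * (x % p) + ε := by
  have h1 := Nat.div_add_mod x p
  have h2 := Nat.mod_lt x hp
  have h3 : 2 * x + ε = 2 * p * (x / p) + (2 * (x % p) + ε) := by
    nlinarith
  rw [h3, Nat.mul_add_mod]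
  exact Nat.mod_eq_of_lt (by omega)

theorem pf_TT2 : T_TT2 := by
  intro p m hp
  unfold tt
  have h1 : 2 * ((univ : Finset (Fin m × Fin m)).filter fun x =>
      x.1 < x.2 ∧ x.1.val % p = x.2.val % p).card =
      (((univ : Finset (Fin m × Fin m)).filter fun x =>
        x.1 < x.2 ∧ x.1.val % p = x.2.val % p) ×ˢ (univ : Finset (Fin 2))).card := by
    rw [Finset.card_product, Finset.card_univ, Fintype.card_fin, mul_comm]
  rw [h1]
  refine Finset.card_bij (fun q _ => (⟨2 * q.1.1.val + q.2.val, by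
      have := q.1.1.isLt; have := q.2.isLt; omega⟩, ⟨2 * q.1.2.val + q.2.val, by
      have := q.1.2.isLt; have := q.2.isLt; omega⟩)) ?_ ?_ ?_
  · rintro ⟨⟨x, y⟩, ε⟩ hq
    rw [Finset.mem_product, Finset.mem_filter] at hq
    obtain ⟨⟨-, h2, h3⟩, -⟩ := hq
    rw [Finset.mem_filter]
    have h4 : x.val < y.val := h2
    refine ⟨Finset.mem_univ _, ?_, ?_⟩
    · change 2 * x.val + ε.val < 2 * y.val + ε.val
      omega
    · change (2 * x.val + ε.val) % (2 * p) = (2 * y.val + ε.val) % (2 * p)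
      rw [two_mod p _ _ hp ε.isLt, two_mod p _ _ hp ε.isLt]
      have h5 : x.val % p = y.val % p := h3
      rw [h5]
  · rintro ⟨⟨x, y⟩, ε⟩ _ ⟨⟨x', y'⟩, ε'⟩ _ h
    have h2 : 2 * x.val + ε.val = 2 * x'.val + ε'.val := congrArg (fun q => q.1.val) h
    have h3 : 2 * y.val + ε.val = 2 * y'.val + ε'.val := congrArg (fun q => q.2.val) h
    have e1 := ε.isLt
    have e2 := ε'.isLt
    have h4 : ε = ε' := Fin.ext (by omega)
    have h5 : x = x' := Fin.ext (by omega)
    have h6 : y = y' := Fin.ext (by omega)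
    rw [h4, h5, h6]
  · rintro ⟨a, b⟩ hab
    rw [Finset.mem_filter] at hab
    obtain ⟨-, h2, h3⟩ := hab
    have h2' : a.val < b.val := h2
    have h3' : a.val % (2 * p) = b.val % (2 * p) := h3
    have h4 : a.val % 2 = b.val % 2 := by
      rw [← Nat.mod_mul_right_mod a.val 2 p, h3', Nat.mod_mul_right_mod]
    have ha := a.isLt
    have hb := b.isLt
    have h5 : (a.val / 2) % p = (b.val / 2) % p := by
      have e1 := two_mod p (a.val / 2) (a.val % 2) hp (Nat.mod_lt _ (by norm_num))
      have e2 := two_mod p (b.val / 2) (b.val % 2) hp (Nat.mod_lt _ (by norm_num))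
      rw [Nat.div_add_mod] at e1 e2
      omega
    refine ⟨((⟨a.val / 2, by omega⟩, ⟨b.val / 2, by omega⟩), ⟨a.val % 2, by omega⟩), ?_, ?_⟩
    · rw [Finset.mem_product, Finset.mem_filter]
      refine ⟨⟨Finset.mem_univ _, ?_, h5⟩, Finset.mem_univ _⟩
      change a.val / 2 < b.val / 2
      omega
    · refine Prod.ext (Fin.ext ?_) (Fin.ext ?_)
      · change 2 * (a.val / 2) + a.val % 2 = a.val
        omega
      · change 2 * (b.val / 2) + a.val % 2 = b.val
        omega

end Pool.Agent.H63.BPQ
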