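import Pool.Agent.H63.BPQ.FT

/-! # Board bpq_modules, row WEX: a sequence of points gives a walk -/

set_option autoImplicit false

open Finset Pool.Agent.H55.BP Pool.Agent.H55.BQ

namespace Pool.Agent.H63.BPQ

/-- the enumeration of the flips -/
theorem enum_flips (P : ℕ → Prop) (κ : ℕ) : P κ → ∃ (K : ℕ) (ι : ℕ → ℕ), ι K = κ ∧
    (∀ j < K, ι j < ι (j + 1)) ∧ (∀ j ≤ K, P (ι j)) ∧ ∀ k ≤ κ, P k → ∃ j ≤ K, ι j = k := by
  classical
  induction κ using Nat.strong_induction_on with
  | _ κ ih =>
    intro hκ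
    by_cases h : ∃ k, k < κ ∧ P k
    · obtain ⟨k₁, hk₁, hP₁⟩ := h
      -- the last one before `κ`
      have hmax : ∃ k, k < κ ∧ P k ∧ ∀ l, l < κ → P l → l ≤ k := by
        refine ⟨Nat.findGreatest P (κ - 1), ?_, ?_, ?_⟩
        · have := Nat.findGreatest_le (P := P) (κ - 1)
          omega
        · exact Nat.findGreatest_spec (P := P) (m := k₁) (by omega) hP₁
        · intro l hl hPl
          exact Nat.le_findGreatest (by omega) hPl
      obtain ⟨k', hk', hP', hm⟩ := hmax
      obtain ⟨K, ι, h1, h2, h3, h4⟩ := ih k' hk' hP'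
      refine ⟨K + 1, fun j => if j ≤ K then ι j else κ, ?_, ?_, ?_, ?_⟩
      · simp
      · intro j hj
        rcases Nat.lt_or_ge j K with hjK | hjK
        · simp only [hjK.le, if_true, Nat.succ_le_of_lt hjK]
          exact h2 j hjK
        · have : j = K := by omega
          subst this
          simp only [le_refl, if_true, Nat.not_succ_le_self, if_false]
          rw [h1]
          exact hk'
      · intro j hj
        rcases Nat.lt_or_ge K j with hjK | hjK
        · simp only [not_le.mpr hjK, if_false]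
          exact hκ
        · simp only [hjK, if_true]
          exact h3 j hjK
      · intro k hk hPk
        rcases eq_or_lt_of_le hk with h5 | h5
        · exact ⟨K + 1, le_rfl, by simp [h5]⟩
        · obtain ⟨j, hj, hj2⟩ := h4 k (hm k h5 hPk) hPk
          exact ⟨j, by omega, by simp [hj, hj2]⟩
    · refine ⟨0, fun _ => κ, rfl, fun j hj => absurd hj (Nat.not_lt_zero j), fun _ _ => hκ, ?_⟩
      intro k hk hPk
      refine ⟨0, le_rfl, ?_⟩
      rcases eq_or_lt_of_le hk with h5 | h5
      · exact h5.symm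
      · exact absurd ⟨k, h5, hPk⟩ h

theorem pf_WEX : T_WEX := by
  intro n _ T c₀ z κ hκ
  obtain ⟨K, ι, h1, h2, h3, h4⟩ := enum_flips (fun k => sg (z k) ≠ sg (z (k + 1))) κ hκ
  -- monotonicity
  have hmono : ∀ i j, i ≤ j → j ≤ K → ι i ≤ ι j := by
    intro i j hij
    induction j, hij using Nat.le_induction with
    | base => intro _; exact le_rfl
    | succ j hij ih => intro hj; exact (ih (by omega)).trans (h2 j (by omega)).le
  have hsm : ∀ i j, i < j → j ≤ K → ι i < ι j := by
    intro i j hij hj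
    exact (h2 i (by omega)).trans_le (hmono (i + 1) j hij hj)
  have hle : ∀ j ≤ K, ι j ≤ κ := by
    intro j hj
    rw [← h1]
    exact hmono j K hj le_rfl
  -- no flips in between
  have hno : ∀ j < K, ∀ k, ι j < k → k < ι (j + 1) → sg (z k) = sg (z (k + 1)) := by
    intro j hj k hk1 hk2
    by_contra hc
    obtain ⟨i, hi, rfl⟩ := h4 k (hk2.le.trans (hle (j + 1) hj)) hc
    rcases Nat.lt_or_ge j i with h | h
    · have := hmono (j + 1) i h hi
      omega
    · have := hmono i j h (by omega)
      omega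
  have hno0 : ∀ k, k < ι 0 → sg (z k) = sg (z (k + 1)) := by
    intro k hk
    by_contra hc
    obtain ⟨i, hi, rfl⟩ := h4 k (hk.le.trans (hle 0 (Nat.zero_le _))) hc
    have := hmono 0 i (Nat.zero_le _) hi
    omega
  refine ⟨⟨K, fun j => cell T c₀ z (ι j), fun j => side n (xr (z (ι j)) (z (ι j + 1))),
    fun j => th (xr (z (ι j)) (z (ι j + 1))), ?_⟩, ι, ?_⟩
  · intro j hj
    change cell T c₀ z (ι (j + 1)) = T.r (side n (xr (z (ι j)) (z (ι j + 1)))) (cell T c₀ z (ι j))
    rw [← cell_succ_ne T c₀ z (ι j) (h3 j hj.le)]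
    exact (run_const T c₀ z (ι j + 1) (ι (j + 1)) (h2 j hj) fun k hk1 hk2 =>
      hno j hj k (by omega) hk2).1
  · refine ⟨h1, h2, h3, h4, fun _ _ => rfl, fun _ _ => rfl, fun _ _ => rfl, ?_, ?_⟩
    · intro k hk
      have := run_const T c₀ z 0 k (Nat.zero_le k) fun j _ hj => hno0 j (by omega)
      exact this
    · intro j hj k hk1 hk2
      have := run_const T c₀ z k (ι (j + 1)) hk2 fun l hl1 hl2 => hno j hj l (by omega) hl2
      exact ⟨this.1.symm, this.2.symm⟩

end Pool.Agent.H63.BPQ
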