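import Pool.Agent.H55.BQ.Targets

/-! # Board bpq_modules, row XVT: the sum over the cells -/

set_option autoImplicit false

open Finset Pool.Agent.H55.BP Pool.Agent.H55.BQ

namespace Pool.Agent.H63.BPQ

/-- the start term -/
def mst {n : ℕ} (o : Option (Fin n)) (g : ℕ → ZMod 2) : ZMod 2 :=
  match o with
  | some s => g (2 * s.val)
  | none => 0

theorem wp' (hWP : T_WP) {n : ℕ} (T : LT n) [DecidableEq T.V] (L : Walk T) (lam : Fin n) (c : T.V)
    (g : ℕ → ZMod 2) : inc L lam (fun c' a => if c' = c then g a else 0) =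
    g (dval lam (T.dir c (L.C L.K))) + mst (T.dir c (L.C 0)) g := by
  rw [hWP T L lam c g]
  unfold mst
  cases T.dir c (L.C 0) <;> rfl

/-- the value as a sum over the cells -/
theorem inc_cells {n : ℕ} (T : LT n) [DecidableEq T.V] (L : Walk T) (lam : Fin n)
    (f : T.V → ℕ → ZMod 2) (F : Finset T.V) (hF : ∀ k ≤ L.K, L.C k ∈ F) :
    inc L lam f = ∑ c ∈ F, inc L lam (fun c' x => if c' = c then f c x else 0) := by
  unfold inc
  conv_rhs => rw [Finset.sum_add_distrib, Finset.sum_comm]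
  have h1 : ∀ k ≤ L.K, ∀ x, (∑ c ∈ F, if L.C k = c then f c x else 0) = f (L.C k) x := by
    intro k hk x
    rw [Finset.sum_ite_eq, if_pos (hF k hk)]
  rw [h1 L.K le_rfl]
  congr 1
  refine Finset.sum_congr rfl fun k hk => ?_
  have hk' := Finset.mem_range.mp hk
  rw [Finset.sum_add_distrib, h1 k hk'.le, h1 (k + 1) hk']

theorem sum_off (X : Fin 3 → Fin 3 → ZMod 2) (P Q : Fin 3 → ZMod 2) :
    (∑ a : Fin 3, ∑ b : Fin 3, if a ≠ b then X a b + P a + Q b else 0) =
    ∑ a : Fin 3, ∑ b : Fin 3, if a ≠ b then X a b else 0 := by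
  simp only [Fin.sum_univ_three]
  have h2 : ∀ x : ZMod 2, x + x = 0 := CharTwo.add_self_eq_zero
  have f : ∀ (i : Fin 3) (x : ZMod 2), (if i ≠ i then x else 0) = 0 := by
    intro i x
    simp
  simp only [f]
  have t : ∀ (i j : Fin 3) (x : ZMod 2), i ≠ j → (if i ≠ j then x else 0) = x := by
    intro i j x h
    rw [if_pos h]
  rw [t 0 1 _ (by decide), t 0 2 _ (by decide), t 1 0 _ (by decide), t 1 2 _ (by decide),
    t 2 0 _ (by decide), t 2 1 _ (by decide), t 0 1 _ (by decide), t 0 2 _ (by decide),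
    t 1 0 _ (by decide), t 1 2 _ (by decide), t 2 0 _ (by decide), t 2 1 _ (by decide)]
  linear_combination h2 (P 0) + h2 (P 1) + h2 (P 2) + h2 (Q 0) + h2 (Q 1) + h2 (Q 2)

theorem pf_XVT (hWP : T_WP) : T_XVT := by
  classical
  intro n T _ L M lam mu hL hM
  refine ⟨univ.biUnion fun a => (range ((L a).K + 1)).image (L a).C, fun F' hF' => ?_⟩
  have hcells : ∀ a, ∀ k ≤ (L a).K, (L a).C k ∈ F' := by
    intro a k hk
    apply hF'
    rw [Finset.mem_biUnion]
    exact ⟨a, Finset.mem_univ _, Finset.mem_image.mpr ⟨k, Finset.mem_range.mpr (by omega), rfl⟩⟩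
  -- the inner sums
  let v : Fin 3 → T.V → ℕ := fun b c => dval (mu b) (T.dir c ((M b).C (M b).K))
  let u : Fin 3 → T.V → ℕ := fun a c => dval (lam a) (T.dir c ((L a).C (L a).K))
  let m : T.V → ℕ → ZMod 2 := fun c x =>
    mst (T.dir c ((M 0).C 0)) (fun y => if y < x then 1 else 0)
  let G : Fin 3 → T.V → ℕ → ZMod 2 := fun b c x => (if v b c < x then 1 else 0) + m c x
  have hin : ∀ (b : Fin 3) (c : T.V) (x : ℕ),
      inc (M b) (mu b) (fun c' y => if c' = c ∧ y < x then 1 else 0) = G b c x := by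
    intro b c x
    have h1 : (fun (c' : T.V) (y : ℕ) => if c' = c ∧ y < x then (1 : ZMod 2) else 0) =
        fun (c' : T.V) (y : ℕ) => if c' = c then (if y < x then (1 : ZMod 2) else 0) else 0 := by
      funext c' y
      by_cases h1 : c' = c <;> by_cases h2 : y < x <;> simp [h1, h2]
    rw [h1, wp' hWP T (M b) (mu b) c (fun y => if y < x then 1 else 0), hM b 0]
  have hXV : ∀ a b, XV (L a) (M b) (lam a) (mu b) =
      ∑ c ∈ F', (G b c (u a c) + mst (T.dir c ((L 0).C 0)) (G b c)) := by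
    intro a b
    have h1 : XV (L a) (M b) (lam a) (mu b) = inc (L a) (lam a) (fun c x => G b c x) := by
      unfold XV
      congr 1
      funext c x
      rw [← hin b c x]
      congr 1
      funext c' y
      by_cases h1 : c' = c <;> by_cases h2 : y < x <;> simp [h1, h2]
    rw [h1, inc_cells T (L a) (lam a) (fun c x => G b c x) F' (hcells a)]
    refine Finset.sum_congr rfl fun c _ => ?_
    rw [wp' hWP T (L a) (lam a) c (G b c), hL a 0]
  -- exchange the sums
  have h1 : (∑ a : Fin 3, ∑ b : Fin 3, if a ≠ b then XV (L a) (M b) (lam a) (mu b) else 0) =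
      ∑ c ∈ F', ∑ a : Fin 3, ∑ b : Fin 3,
        if a ≠ b then G b c (u a c) + mst (T.dir c ((L 0).C 0)) (G b c) else 0 := by
    have e1 : ∀ a b : Fin 3, (if a ≠ b then XV (L a) (M b) (lam a) (mu b) else 0) =
        ∑ c ∈ F', if a ≠ b then G b c (u a c) + mst (T.dir c ((L 0).C 0)) (G b c) else 0 := by
      intro a b
      by_cases hab : a ≠ b
      · simp only [if_pos hab]
        exact hXV a b
      · simp only [if_neg hab, Finset.sum_const_zero]
    calc (∑ a : Fin 3, ∑ b : Fin 3, if a ≠ b then XV (L a) (M b) (lam a) (mu b) else 0) =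
        ∑ a : Fin 3, ∑ b : Fin 3, ∑ c ∈ F',
          (if a ≠ b then G b c (u a c) + mst (T.dir c ((L 0).C 0)) (G b c) else 0) :=
          Finset.sum_congr rfl fun a _ => Finset.sum_congr rfl fun b _ => e1 a b
      _ = ∑ a : Fin 3, ∑ c ∈ F', ∑ b : Fin 3,
          (if a ≠ b then G b c (u a c) + mst (T.dir c ((L 0).C 0)) (G b c) else 0) :=
          Finset.sum_congr rfl fun a _ => Finset.sum_comm
      _ = _ := Finset.sum_comm
  rw [h1]
  refine Finset.sum_congr rfl fun c _ => ?_
  have h2 := sum_off (fun a b => if v b c < u a c then 1 else 0) (fun a => m c (u a c))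
    (fun b => mst (T.dir c ((L 0).C 0)) (G b c))
  refine (Eq.trans ?_ h2).trans ?_
  · rfl
  · refine Finset.sum_congr rfl fun a _ => Finset.sum_congr rfl fun b _ => ?_
    by_cases hab : a ≠ b
    · by_cases hv : v b c < u a c
      · rw [if_pos hab, if_pos hv, if_pos ⟨hab, hv⟩]
      · rw [if_pos hab, if_neg hv, if_neg fun h => hv h.2]
    · rw [if_neg hab, if_neg fun h => hab h.1]

end Pool.Agent.H63.BPQ
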