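import Pool.Agent.H55.BQ.Targets

/-!
# Board bpq_modules: common lemmas on the spirals
-/

set_option autoImplicit false

open Finset Pool.Agent.H55.BP Pool.Agent.H55.BQ

namespace Pool.Agent.H63.BPQ

/-- the exponent of the spirals -/
noncomputable def cc : ℂ := 2 * Real.pi * Complex.I - Real.log 2

theorem exp_cc : Complex.exp cc = (2 : ℂ)⁻¹ := by
  unfold cc
  rw [Complex.exp_sub, Complex.exp_two_pi_mul_I, ← Complex.ofReal_exp, Real.exp_log (by norm_num)]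
  norm_num

theorem exp_nat_cc (m : ℕ) : Complex.exp ((m : ℂ) * cc) = ((2 : ℂ) ^ m)⁻¹ := by
  rw [Complex.exp_nat_mul, exp_cc, inv_pow]

theorem cc_re : cc.re = -Real.log 2 := by
  unfold cc
  rw [Complex.sub_re, Complex.ofReal_re]
  have h1 : (2 * Real.pi * Complex.I : ℂ).re = 0 := by simp
  rw [h1, zero_sub]

theorem cc_im : cc.im = 2 * Real.pi := by
  unfold cc
  rw [Complex.sub_im, Complex.ofReal_im]
  simp

theorem norm_exp_cc (x : ℝ) : ‖Complex.exp ((x : ℂ) * cc)‖ = Real.exp (-(x * Real.log 2)) := by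
  rw [Complex.norm_exp, Complex.re_ofReal_mul, cc_re, mul_neg]

theorem norm_cc : ‖cc‖ ≤ 8 := by
  unfold cc
  refine (norm_sub_le _ _).trans ?_
  have h1 : ‖(2 * Real.pi * Complex.I : ℂ)‖ = 2 * Real.pi := by
    rw [norm_mul, norm_mul, Complex.norm_I, Complex.norm_real, Real.norm_of_nonneg Real.pi_pos.le]
    norm_num
  have h2 : ‖((Real.log 2 : ℝ) : ℂ)‖ = Real.log 2 := by
    rw [Complex.norm_real, Real.norm_of_nonneg (Real.log_nonneg (by norm_num))]
  rw [h1, h2]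
  have h3 := Real.pi_lt_d2
  have h4 := Real.log_two_lt_d9
  linarith

section

variable {n : ℕ} {ι : Type} (Y : Sys n ι)

theorem spi' (e : ι) (t : ℝ) (ht : 1 ≤ t) : Y.γ e t - ((Y.wt e).val : ℂ) =
    (Y.γ e 1 - ((Y.wt e).val : ℂ)) * Complex.exp (((t - 1 : ℝ) : ℂ) * cc) := by
  rw [Y.spi e t ht]
  unfold cc
  ring

theorem norm_spi (e : ι) (t : ℝ) (ht : 1 ≤ t) : ‖Y.γ e t - ((Y.wt e).val : ℂ)‖ =
    Y.rad * Real.exp (-((t - 1) * Real.log 2)) := by
  rw [spi' Y e t ht, norm_mul, Y.hit, norm_exp_cc]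

theorem one_le_div {N k : ℕ} (hN : 0 < N) (hk : N ≤ k) : (1 : ℝ) ≤ (k : ℝ) / N := by
  rw [le_div_iff₀ (by exact_mod_cast hN), one_mul]
  exact_mod_cast hk

/-- the norm of the points in the spiral -/
theorem norm_z (N : ℕ) (hN : 0 < N) (e : ι) (k : ℕ) (hk : N ≤ k) :
    ‖Y.z N e k - ((Y.wt e).val : ℂ)‖ = Y.rad * Real.exp (-(((k : ℝ) / N - 1) * Real.log 2)) :=
  norm_spi Y e _ (one_le_div hN hk)

theorem norm_z_le (N : ℕ) (hN : 0 < N) (e : ι) (k : ℕ) (hk : N ≤ k) :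
    ‖Y.z N e k - ((Y.wt e).val : ℂ)‖ ≤ Y.rad := by
  rw [norm_z Y N hN e k hk]
  have h1 : Real.exp (-(((k : ℝ) / N - 1) * Real.log 2)) ≤ 1 := by
    rw [Real.exp_le_one_iff, neg_nonpos]
    have := one_le_div hN hk
    exact mul_nonneg (by linarith) (Real.log_nonneg (by norm_num))
  have := Y.rad_pos
  nlinarith

theorem norm_z_pos (N : ℕ) (hN : 0 < N) (e : ι) (k : ℕ) (hk : N ≤ k) :
    0 < ‖Y.z N e k - ((Y.wt e).val : ℂ)‖ := by
  rw [norm_z Y N hN e k hk]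
  exact mul_pos Y.rad_pos (Real.exp_pos _)

/-- comparison of the norms in two spirals -/
theorem norm_z_comp (N : ℕ) (hN : 0 < N) (e f : ι) (k l c : ℕ) (hk : N ≤ k) (hl : N ≤ l)
    (hc : k + c * N ≤ l) : 2 ^ c * ‖Y.z N f l - ((Y.wt f).val : ℂ)‖ ≤
      ‖Y.z N e k - ((Y.wt e).val : ℂ)‖ := by
  rw [norm_z Y N hN e k hk, norm_z Y N hN f l hl]
  have hN' : (0 : ℝ) < N := by exact_mod_cast hN
  have h1 : (2 : ℝ) ^ c = Real.exp (c * Real.log 2) := by
    rw [mul_comm, Real.exp_mul, Real.exp_log (by norm_num), Real.rpow_natCast]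
  have h2 : (2 : ℝ) ^ c * Real.exp (-(((l : ℝ) / N - 1) * Real.log 2)) ≤
      Real.exp (-(((k : ℝ) / N - 1) * Real.log 2)) := by
    rw [h1, ← Real.exp_add, Real.exp_le_exp]
    have h3 : (k : ℝ) / N + c ≤ (l : ℝ) / N := by
      rw [div_add' _ _ _ hN'.ne', div_le_div_iff_of_pos_right hN']
      exact_mod_cast hc
    have h4 : 0 < Real.log 2 := Real.log_pos (by norm_num)
    nlinarith
  have := Y.rad_pos
  nlinarith

/-- the steps are small -/
theorem st_le (N : ℕ) (hF : Y.Fine N) (e : ι) (k : ℕ) (i : Fin n) :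
    100 * Y.st N e k ≤ 2.02 * ‖Y.z N e k - (i.val : ℂ)‖ * 1.001 := by
  unfold Sys.st
  have h1 := hF.small e k i
  have h0 : 0 ≤ ‖Y.z N e k - (i.val : ℂ)‖ := norm_nonneg _
  rcases Nat.eq_zero_or_pos k with h | h
  · subst h
    simp only [Nat.zero_sub, sub_self, norm_zero, add_zero] at h1 ⊢
    linarith
  · have h2 := hF.small e (k - 1) i
    rw [Nat.sub_add_cancel h] at h2
    have h3 : ‖Y.z N e (k - 1) - (i.val : ℂ)‖ ≤ ‖Y.z N e k - (i.val : ℂ)‖ +
        ‖Y.z N e k - Y.z N e (k - 1)‖ := by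
      have : Y.z N e (k - 1) - (i.val : ℂ) = (Y.z N e k - (i.val : ℂ)) -
          (Y.z N e k - Y.z N e (k - 1)) := by ring
      rw [this]
      exact norm_sub_le _ _
    linarith

/-- distance of two white vertices -/
theorem wt_dist (i j : Fin n) (h : i ≠ j) : 1 ≤ ‖((i.val : ℕ) : ℂ) - (j.val : ℂ)‖ := by
  have h1 : ((i.val : ℕ) : ℂ) - (j.val : ℂ) = (((i.val : ℤ) - (j.val : ℤ) : ℤ) : ℂ) := by push_cast; ring
  rw [h1, Complex.norm_intCast]
  have h2 : (i.val : ℤ) - (j.val : ℤ) ≠ 0 := by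
    intro h3
    apply h
    apply Fin.ext
    omega
  exact_mod_cast Int.one_le_abs h2

end

end Pool.Agent.H63.BPQ
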