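import Pool.Agent.H55.BQ.Targets

/-! # Board bpq_modules, row TG: the term of the common branch -/

set_option autoImplicit false

open Finset Pool.Agent.H55.BP Pool.Agent.H55.BQ

namespace Pool.Agent.H63.BPQ

theorem pf_TG : T_TG := by
  intro n T E F lam mu g d d' hd hd' h1 hE hF
  have a1 : (d 0).val < (d 1).val := hd (by decide)
  have a2 : (d 1).val < (d 2).val := hd (by decide)
  have b1 : (d' 0).val < (d' 1).val := hd' (by decide)
  have b2 : (d' 1).val < (d' 2).val := hd' (by decide)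
  have c : (d 1).val = (d' 1).val := congrArg Fin.val h1
  have key : ∀ a b : Fin 3, (if a ≠ b ∧ dval (mu b) (T.dir g (F b)) < dval (lam a) (T.dir g (E a))
      then 1 else 0 : ZMod 2) = if a ≠ b ∧ (d' b).val < (d a).val then 1 else 0 := by
    intro a b
    rw [hE, hF]
    have : (dval (mu b) (some (d' b)) < dval (lam a) (some (d a))) ↔ (d' b).val < (d a).val := by
      change 2 * (d' b).val < 2 * (d a).val ↔ _
      omega
    simp only [this]
  simp only [key, Fin.sum_univ_three]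
  have f01 : ¬ ((0 : Fin 3) ≠ 1 ∧ (d' 1).val < (d 0).val) := fun h => by omega
  have f02 : ¬ ((0 : Fin 3) ≠ 2 ∧ (d' 2).val < (d 0).val) := fun h => by omega
  have f12 : ¬ ((1 : Fin 3) ≠ 2 ∧ (d' 2).val < (d 1).val) := fun h => by omega
  have t10 : ((1 : Fin 3) ≠ 0 ∧ (d' 0).val < (d 1).val) := ⟨by decide, by omega⟩
  have t20 : ((2 : Fin 3) ≠ 0 ∧ (d' 0).val < (d 2).val) := ⟨by decide, by omega⟩
  have t21 : ((2 : Fin 3) ≠ 1 ∧ (d' 1).val < (d 2).val) := ⟨by decide, by omega⟩
  have f00 : ∀ (i : Fin 3) (P : Prop), ¬ (i ≠ i ∧ P) := fun i P h => h.1 rfl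
  rw [if_neg f01, if_neg f02, if_neg f12, if_pos t10, if_pos t20, if_pos t21,
    if_neg (f00 0 _), if_neg (f00 1 _), if_neg (f00 2 _)]
  decide

end Pool.Agent.H63.BPQ
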